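import Mathlib

/-!
# The binary tiling of the hyperbolic plane and its chains modulo 2

Vertices, faces and edges are indexed by pairs of integers. The vertex `(n, k)` is the point
`k 2 ^ (-n) + i 2 ^ (-n)`. The edge `h n k` joins `(n, k)` to `(n, k + 1)`, the edge `s n k` joins
`(n, k)` to `(n + 1, 2 k)`. The face `(n, k)` lies below `h n k`.
-/

set_option autoImplicit false

namespace Pool.Agent.V8H67.Sol

/-- Edges of the binary tiling. -/
inductive Edge
  | h (n k : ℤ)
  | s (n k : ℤ)
deriving DecidableEq

namespace Edge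

/-- The first end point; it is also the index of one of the two faces at the edge (the one below
`h n k`, the one to the right of `s n k`). -/
def src : Edge → ℤ × ℤ
  | h n k => (n, k)
  | s n k => (n, k)

/-- The second end point. -/
def tgt : Edge → ℤ × ℤ
  | h n k => (n, k + 1)
  | s n k => (n + 1, 2 * k)

/-- The other face at the edge. -/
def lf : Edge → ℤ × ℤ
  | h n k => (n - 1, k / 2)
  | s n k => (n, k - 1)

end Edge

open Edge Finsupp

/-- 0-chains. -/
abbrev C0 := (ℤ × ℤ) →₀ ZMod 2
/-- 1-chains. -/
abbrev C1 := Edge →₀ ZMod 2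
/-- 2-chains. -/
abbrev C2 := (ℤ × ℤ) →₀ ZMod 2

/-- The boundary of a 1-chain. -/
noncomputable def d1 : C1 →ₗ[ZMod 2] C0 :=
  Finsupp.linearCombination (ZMod 2) (fun e => Finsupp.single e.src 1 + Finsupp.single e.tgt 1)

/-- The boundary of a 2-chain. -/
noncomputable def d2 : C2 →ₗ[ZMod 2] C1 :=
  Finsupp.linearCombination (ZMod 2) (fun f =>
    Finsupp.single (h f.1 f.2) 1 + Finsupp.single (s f.1 f.2) 1 + Finsupp.single (s f.1 (f.2 + 1)) 1 +
    Finsupp.single (h (f.1 + 1) (2 * f.2)) 1 + Finsupp.single (h (f.1 + 1) (2 * f.2 + 1)) 1)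

lemma two0 : (2 : ZMod 2) = 0 := by decide

lemma add_self0 (a : ZMod 2) : a + a = 0 := by
  have := two0
  linear_combination a * this

lemma d1_single (e : Edge) (c : ZMod 2) :
    d1 (Finsupp.single e c) = Finsupp.single e.src c + Finsupp.single e.tgt c := by
  simp [d1, Finsupp.linearCombination_single, smul_add, Finsupp.smul_single]

lemma ne_zero_iff (a : ZMod 2) : a ≠ 0 ↔ a = 1 := by
  revert a; decide

lemma d1_apply (z : C1) (n k : ℤ) :
    d1 z (n, k) = z (h n (k - 1)) + z (h n k) + z (s n k) +
      (if k % 2 = 0 then z (s (n - 1) (k / 2)) else 0) := by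
  induction z using Finsupp.induction_linear with
  | zero => simp
  | add f g hf hg =>
    rw [map_add, Finsupp.add_apply, hf, hg]
    simp only [Finsupp.add_apply]
    split_ifs <;> ring
  | single e c =>
    rw [d1_single]
    cases e with
    | h a b =>
      simp only [Finsupp.add_apply, Finsupp.single_apply, src, tgt, Prod.mk.injEq, Edge.h.injEq,
        reduceCtorEq, if_false, add_zero, ite_self]
      by_cases h1 : a = n
      · by_cases h2 : b = k
        · have h3 : ¬ (b + 1 = k) := by omega
          have h4 : ¬ (b = k - 1) := by omega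
          rw [if_pos ⟨h1, h2⟩, if_neg (fun h => h3 h.2), if_neg (fun h => h4 h.2)]
          ring
        · by_cases h3 : b + 1 = k
          · have h4 : b = k - 1 := by omega
            simp [h1, h4]
          · have h4 : ¬ (b = k - 1) := by omega
            simp [h1, h2, h3, h4]
      · simp [h1]
    | s a b =>
      simp only [Finsupp.add_apply, Finsupp.single_apply, src, tgt, Prod.mk.injEq, Edge.s.injEq,
        reduceCtorEq, if_false, zero_add]
      congr 1
      by_cases h1 : k % 2 = 0
      · rw [if_pos h1]
        by_cases h2 : a + 1 = n ∧ 2 * b = k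
        · have h3 : a = n - 1 ∧ b = k / 2 := by omega
          rw [if_pos h2, if_pos h3]
        · have h3 : ¬ (a = n - 1 ∧ b = k / 2) := by omega
          rw [if_neg h2, if_neg h3]
      · rw [if_neg h1]
        have h2 : ¬ (a + 1 = n ∧ 2 * b = k) := by omega
        rw [if_neg h2]

lemma d2_apply (A : C2) (e : Edge) : d2 A e = A e.src + A e.lf := by
  induction A using Finsupp.induction_linear with
  | zero => simp
  | add f g hf hg =>
    rw [map_add, Finsupp.add_apply, hf, hg]
    simp only [Finsupp.add_apply]
    ring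
  | single f c =>
    obtain ⟨n, k⟩ := f
    simp only [d2, Finsupp.linearCombination_single, Finsupp.smul_apply, Finsupp.add_apply,
      Finsupp.single_apply, smul_eq_mul]
    cases e with
    | h a b =>
      simp only [src, lf, Prod.mk.injEq, Edge.h.injEq, reduceCtorEq, if_false]
      by_cases h1 : n = a ∧ k = b
      · have h2 : ¬ (n + 1 = a ∧ 2 * k = b) := by omega
        have h3 : ¬ (n + 1 = a ∧ 2 * k + 1 = b) := by omega
        have h4 : ¬ (n = a - 1 ∧ k = b / 2) := by omega
        rw [if_pos h1, if_neg h2, if_neg h3, if_neg h4, if_pos h1]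
        ring
      · by_cases h2 : n + 1 = a ∧ 2 * k = b
        · have h3 : ¬ (n + 1 = a ∧ 2 * k + 1 = b) := by omega
          have h4 : (n = a - 1 ∧ k = b / 2) := by omega
          rw [if_neg h1, if_pos h2, if_neg h3, if_pos h4, if_neg h1]
          ring
        · by_cases h3 : n + 1 = a ∧ 2 * k + 1 = b
          · have h4 : (n = a - 1 ∧ k = b / 2) := by omega
            rw [if_neg h1, if_neg h2, if_pos h3, if_pos h4, if_neg h1]
            ring
          · have h4 : ¬ (n = a - 1 ∧ k = b / 2) := by omega
            rw [if_neg h1, if_neg h2, if_neg h3, if_neg h4, if_neg h1]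
            ring
    | s a b =>
      simp only [src, lf, Prod.mk.injEq, Edge.s.injEq, reduceCtorEq, if_false]
      by_cases h1 : n = a ∧ k = b
      · have h2 : ¬ (n = a ∧ k + 1 = b) := by omega
        have h3 : ¬ (n = a ∧ k = b - 1) := by omega
        rw [if_pos h1, if_neg h2, if_neg h3, if_pos h1]
        ring
      · by_cases h2 : n = a ∧ k + 1 = b
        · have h3 : (n = a ∧ k = b - 1) := by omega
          rw [if_neg h1, if_pos h2, if_pos h3, if_neg h1]
          ring
        · have h3 : ¬ (n = a ∧ k = b - 1) := by omega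
          rw [if_neg h1, if_neg h2, if_neg h3, if_neg h1]
          ring

lemma d1_d2 (A : C2) : d1 (d2 A) = 0 := by
  ext ⟨n, k⟩
  rw [d1_apply]
  simp only [d2_apply, src, lf, Finsupp.coe_zero, Pi.zero_apply]
  by_cases hk : k % 2 = 0
  · have h1 : (k - 1) / 2 = k / 2 - 1 := by omega
    rw [if_pos hk, h1]
    linear_combination (A (n, k - 1) + A (n, k) + A (n - 1, k / 2) + A (n - 1, k / 2 - 1)) * two0
  · have h1 : (k - 1) / 2 = k / 2 := by omega
    rw [if_neg hk, h1]
    linear_combination (A (n, k - 1) + A (n, k) + A (n - 1, k / 2)) * two0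

/-- The augmentation. -/
noncomputable def aug : C0 →ₗ[ZMod 2] ZMod 2 := Finsupp.linearCombination (ZMod 2) (fun _ => (1 : ZMod 2))

lemma aug_d1 (z : C1) : aug (d1 z) = 0 := by
  induction z using Finsupp.induction_linear with
  | zero => simp
  | add f g hf hg => rw [map_add, map_add, hf, hg, add_zero]
  | single e c =>
    rw [d1_single, map_add]
    simp only [aug, Finsupp.linearCombination_single, smul_eq_mul, mul_one]
    exact add_self0 c

/-! ### Filling cycles -/

/-- The auxiliary filling function. -/
noncomputable def fa (z : C1) (n0 : ℤ) : ℕ → ℤ → ZMod 2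
  | 0, k => z (h n0 k)
  | i + 1, k => z (h (n0 + (i + 1)) k) + fa z n0 i (k / 2)

lemma fa_adj {z : C1} (hz : d1 z = 0) {n0 : ℤ} (h0 : ∀ k, z (s (n0 - 1) k) = 0) (i : ℕ) (k : ℤ) :
    fa z n0 i k + fa z n0 i (k - 1) = z (s (n0 + i) k) := by
  induction i generalizing k with
  | zero =>
    have h1 : d1 z (n0, k) = 0 := by rw [hz]; rfl
    rw [d1_apply] at h1
    simp only [h0, ite_self, add_zero] at h1
    simp only [fa, Nat.cast_zero, add_zero]
    linear_combination h1 - z (s n0 k) * two0
  | succ i ih =>
    have h1 : d1 z (n0 + (i + 1), k) = 0 := by rw [hz]; rfl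
    rw [d1_apply] at h1
    simp only [fa, Nat.cast_succ]
    have h2 : n0 + ((i : ℤ) + 1) - 1 = n0 + i := by ring
    rw [h2] at h1
    by_cases hk : k % 2 = 0
    · rw [if_pos hk] at h1
      have h3 : (k - 1) / 2 = k / 2 - 1 := by omega
      rw [h3]
      linear_combination h1 + ih (k / 2) - (z (s (n0 + (i + 1)) k)) * two0 - (z (s (n0 + i) (k / 2))) * two0
        + (z (s (n0 + i) (k / 2))) * two0
    · rw [if_neg hk] at h1
      have h3 : (k - 1) / 2 = k / 2 := by omega
      rw [h3]
      linear_combination h1 + (fa z n0 i (k / 2) - z (s (n0 + (i + 1)) k)) * two0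

end Pool.Agent.V8H67.Sol
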