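import Mathlib
import Pool.Agent.V8H67.Sol.Tiling

/-!
# Filling cycles, the isoperimetric inequality and balls in the binary tiling
-/

set_option autoImplicit false

namespace Pool.Agent.V8H67.Sol

open Edge Finsupp

/-- The level of an edge. -/
def Edge.lvl : Edge → ℤ
  | h n _ => n
  | s n _ => n

/-- The horizontal index of an edge. -/
def Edge.idx : Edge → ℤ
  | h _ k => k
  | s _ k => k

lemma exists_bound (z : C1) : ∃ M : ℕ, ∀ e : Edge, z e ≠ 0 → |e.lvl| ≤ M ∧ |e.idx| ≤ M := by
  classical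
  refine ⟨∑ e ∈ z.support, (e.lvl.natAbs + e.idx.natAbs), fun e he => ?_⟩
  have hmem : e ∈ z.support := Finsupp.mem_support_iff.mpr he
  have h1 : e.lvl.natAbs + e.idx.natAbs ≤ ∑ e ∈ z.support, (e.lvl.natAbs + e.idx.natAbs) :=
    Finset.single_le_sum (f := fun e : Edge => e.lvl.natAbs + e.idx.natAbs)
      (fun _ _ => Nat.zero_le _) hmem
  rw [Int.abs_eq_natAbs, Int.abs_eq_natAbs]
  constructor <;> omega

lemma fa_far {z : C1} {M : ℕ} (hM : ∀ e : Edge, z e ≠ 0 → |e.lvl| ≤ M ∧ |e.idx| ≤ M) (n0 : ℤ)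
    (i : ℕ) : ∃ B : ℤ, 0 ≤ B ∧ ∀ k : ℤ, B ≤ |k| → fa z n0 i k = 0 := by
  induction i with
  | zero =>
    refine ⟨M + 1, by positivity, fun k hk => ?_⟩
    by_contra hne
    have h2 := (hM (h n0 k) hne).2
    simp only [Edge.idx] at h2
    omega
  | succ i ih =>
    obtain ⟨B, hB0, hB⟩ := ih
    refine ⟨M + 2 * B + 2, by positivity, fun k hk => ?_⟩
    simp only [fa]
    have h1 : fa z n0 i (k / 2) = 0 := by
      apply hB
      rw [Int.abs_eq_natAbs] at hk ⊢
      omega
    have h2 : z (h (n0 + (i + 1)) k) = 0 := by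
      by_contra hne
      have h2 := (hM _ hne).2
      simp only [Edge.idx] at h2
      omega
    rw [h1, h2, add_zero]

lemma fa_high {z : C1} {M : ℕ} (hM : ∀ e : Edge, z e ≠ 0 → |e.lvl| ≤ M ∧ |e.idx| ≤ M)
    (hz : d1 z = 0) {n0 : ℤ} (h0 : ∀ k, z (s (n0 - 1) k) = 0) (i : ℕ) (hi : (M : ℤ) < n0 + i)
    (k : ℤ) : fa z n0 i k = 0 := by
  have hs : ∀ k, z (s (n0 + i) k) = 0 := by
    intro k
    by_contra hne
    have h2 := (hM _ hne).1
    simp only [Edge.lvl] at h2
    have := abs_le.mp h2
    omega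
  have hstep : ∀ k, fa z n0 i k = fa z n0 i (k - 1) := by
    intro k
    have h1 := fa_adj hz h0 i k
    rw [hs] at h1
    linear_combination h1 - (fa z n0 i (k - 1)) * two0
  have hup : ∀ (j : ℕ) (k : ℤ), fa z n0 i (k + j) = fa z n0 i k := by
    intro j
    induction j with
    | zero => intro k; simp
    | succ j ih =>
      intro k
      rw [hstep]
      have : k + ((j + 1 : ℕ) : ℤ) - 1 = k + j := by push_cast; ring
      rw [this, ih]
  obtain ⟨B, hB0, hB⟩ := fa_far hM n0 i
  have h1 := hup (B.toNat + k.natAbs) k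
  rw [← h1]
  apply hB
  rw [abs_of_nonneg (by omega)]
  omega

lemma exists_fill (z : C1) (hz : d1 z = 0) : ∃ A : C2, d2 A = z := by
  classical
  obtain ⟨M, hM⟩ := exists_bound z
  set n0 : ℤ := -(M : ℤ) with hn0
  have hlow : ∀ (e : Edge), e.lvl < n0 → z e = 0 := by
    intro e he
    by_contra hne
    have := (hM e hne).1
    have := abs_le.mp this
    omega
  have h0 : ∀ k, z (s (n0 - 1) k) = 0 := fun k => hlow _ (by simp [Edge.lvl])
  let F : ℤ × ℤ → ZMod 2 := fun f => if n0 ≤ f.1 then fa z n0 (f.1 - n0).toNat f.2 else 0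
  choose B hB0 hB using fun i => fa_far hM n0 i
  have hfin : (Function.support F).Finite := by
    apply Set.Finite.subset (s := ⋃ i ∈ (Finset.range (2 * M + 1)),
      (fun k : ℤ => ((n0 + (i : ℕ), k) : ℤ × ℤ)) '' Set.Icc (-(B i)) (B i))
    · apply Set.Finite.biUnion (Finset.finite_toSet _)
      intro i _
      exact (Set.finite_Icc _ _).image _
    · rintro ⟨n, k⟩ hf
      simp only [Function.mem_support, F] at hf
      by_cases hn : n0 ≤ n
      · rw [if_pos hn] at hf
        obtain ⟨i, rfl⟩ : ∃ i : ℕ, n = n0 + i := ⟨(n - n0).toNat, by omega⟩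
        have hi : (n0 + (i : ℤ) - n0).toNat = i := by omega
        rw [hi] at hf
        have hi2 : i < 2 * M + 1 := by
          by_contra hcon
          apply hf
          apply fa_high hM hz h0
          omega
        have hk : |k| < B i := by
          by_contra hcon
          exact hf (hB i k (by omega))
        simp only [Set.mem_iUnion, Finset.mem_range, Set.mem_image, Set.mem_Icc]
        refine ⟨i, hi2, k, ?_, rfl⟩
        have := abs_lt.mp hk
        omega
      · rw [if_neg hn] at hf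
        exact absurd rfl hf
  let A : C2 := Finsupp.ofSupportFinite F hfin
  have hA : ∀ f, A f = F f := fun f => rfl
  refine ⟨A, ?_⟩
  ext e
  rw [d2_apply, hA, hA]
  cases e with
  | h n k =>
    simp only [src, lf, F]
    by_cases hn : n0 ≤ n
    · by_cases hn1 : n0 ≤ n - 1
      · rw [if_pos hn, if_pos hn1]
        obtain ⟨i, rfl⟩ : ∃ i : ℕ, n = n0 + (i + 1) := ⟨(n - n0 - 1).toNat, by omega⟩
        have h1 : (n0 + ((i : ℤ) + 1) - n0).toNat = i + 1 := by omega
        have h2 : (n0 + ((i : ℤ) + 1) - 1 - n0).toNat = i := by omega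
        rw [h1, h2]
        simp only [fa]
        linear_combination (fa z n0 i (k / 2)) * two0
      · rw [if_pos hn, if_neg hn1]
        have h1 : n = n0 := by omega
        subst h1
        simp [fa]
    · rw [if_neg hn, if_neg (by omega)]
      rw [hlow (h n k) (by simp only [Edge.lvl]; omega)]
      simp
  | s n k =>
    simp only [src, lf, F]
    by_cases hn : n0 ≤ n
    · rw [if_pos hn, if_pos hn]
      obtain ⟨i, rfl⟩ : ∃ i : ℕ, n = n0 + i := ⟨(n - n0).toNat, by omega⟩
      have h1 : (n0 + (i : ℤ) - n0).toNat = i := by omega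
      rw [h1]
      exact fa_adj hz h0 i k
    · rw [if_neg hn, if_neg hn]
      rw [hlow (s n k) (by simp only [Edge.lvl]; omega)]
      simp

/-! ### Isoperimetry -/

lemma isoperimetric (A : C2) : A.support.card ≤ (d2 A).support.card := by
  classical
  set S := A.support with hS
  let c1 : ℤ × ℤ → ℤ × ℤ := fun f => (f.1 + 1, 2 * f.2)
  let c2 : ℤ × ℤ → ℤ × ℤ := fun f => (f.1 + 1, 2 * f.2 + 1)
  have hc1 : Function.Injective c1 := by
    rintro ⟨a, b⟩ ⟨c, d⟩ h
    simp only [c1, Prod.mk.injEq] at h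
    ext <;> simp <;> omega
  have hc2 : Function.Injective c2 := by
    rintro ⟨a, b⟩ ⟨c, d⟩ h
    simp only [c2, Prod.mk.injEq] at h
    ext <;> simp <;> omega
  have hdisj : Disjoint (S.image c1) (S.image c2) := by
    rw [Finset.disjoint_left]
    intro x hx hy
    rw [Finset.mem_image] at hx hy
    obtain ⟨⟨a, b⟩, _, rfl⟩ := hx
    obtain ⟨⟨c, d⟩, _, hcd⟩ := hy
    simp only [c1, c2, Prod.mk.injEq] at hcd
    omega
  set W := S.image c1 ∪ S.image c2 with hW
  have hcard : W.card = 2 * S.card := by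
    rw [hW, Finset.card_union_of_disjoint hdisj, Finset.card_image_of_injective _ hc1,
      Finset.card_image_of_injective _ hc2]
    ring
  have h1 : S.card ≤ (W \ S).card := by
    have := Finset.le_card_sdiff S W
    omega
  refine h1.trans ?_
  apply Finset.card_le_card_of_injOn (fun g : ℤ × ℤ => Edge.h g.1 g.2)
  · rintro ⟨n, k⟩ hg
    rw [Finset.mem_coe, Finset.mem_sdiff] at hg
    obtain ⟨hgW, hgS⟩ := hg
    simp only [Finset.mem_coe, Finsupp.mem_support_iff, d2_apply, src, lf]
    have hA0 : A (n, k) = 0 := by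
      rw [hS, Finsupp.mem_support_iff, not_not] at hgS
      exact hgS
    rw [hA0, zero_add]
    rw [hW, Finset.mem_union, Finset.mem_image, Finset.mem_image] at hgW
    rcases hgW with ⟨⟨a, b⟩, hab, h⟩ | ⟨⟨a, b⟩, hab, h⟩
    · simp only [c1, Prod.mk.injEq] at h
      have h2 : ((n - 1, k / 2) : ℤ × ℤ) = (a, b) := by ext <;> simp <;> omega
      rw [h2]
      exact Finsupp.mem_support_iff.mp hab
    · simp only [c2, Prod.mk.injEq] at h
      have h2 : ((n - 1, k / 2) : ℤ × ℤ) = (a, b) := by ext <;> simp <;> omega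
      rw [h2]
      exact Finsupp.mem_support_iff.mp hab
  · rintro ⟨a, b⟩ _ ⟨c, d⟩ _ h
    simp only [Edge.h.injEq] at h
    ext
    · exact h.1
    · exact h.2

/-! ### Balls -/

/-- The neighbours of a vertex. -/
def nbrs (v : ℤ × ℤ) : Finset (ℤ × ℤ) :=
  {(v.1, v.2 - 1), (v.1, v.2 + 1), (v.1 + 1, 2 * v.2)} ∪
    (if v.2 % 2 = 0 then {(v.1 - 1, v.2 / 2)} else ∅)

lemma nbrs_card (v : ℤ × ℤ) : (nbrs v).card ≤ 4 := by
  unfold nbrs
  refine (Finset.card_union_le _ _).trans ?_
  have h1 : ({(v.1, v.2 - 1), (v.1, v.2 + 1), (v.1 + 1, 2 * v.2)} : Finset (ℤ × ℤ)).card ≤ 3 :=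
    Finset.card_le_three
  have h2 : (if v.2 % 2 = 0 then ({(v.1 - 1, v.2 / 2)} : Finset (ℤ × ℤ)) else ∅).card ≤ 1 := by
    split_ifs <;> simp
  omega

lemma nbrs_edge {v w : ℤ × ℤ} (hw : w ∈ nbrs v) :
    ∃ e : Edge, (e.src = v ∧ e.tgt = w) ∨ (e.src = w ∧ e.tgt = v) := by
  obtain ⟨n, k⟩ := v
  simp only [nbrs, Finset.mem_union, Finset.mem_insert, Finset.mem_singleton] at hw
  rcases hw with (hw | hw | hw) | hw
  · refine ⟨Edge.h n (k - 1), Or.inr ⟨hw.symm, ?_⟩⟩
    simp [tgt]
  · exact ⟨Edge.h n k, Or.inl ⟨rfl, hw.symm⟩⟩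
  · exact ⟨Edge.s n k, Or.inl ⟨rfl, hw.symm⟩⟩
  · by_cases hk : k % 2 = 0
    · rw [if_pos hk, Finset.mem_singleton] at hw
      refine ⟨Edge.s (n - 1) (k / 2), Or.inr ⟨hw.symm, ?_⟩⟩
      simp only [tgt, Prod.mk.injEq]
      omega
    · rw [if_neg hk] at hw
      simp at hw

lemma edge_nbrs (e : Edge) : e.tgt ∈ nbrs e.src ∧ e.src ∈ nbrs e.tgt := by
  cases e with
  | h n k => simp [nbrs, src, tgt]
  | s n k =>
    constructor
    · simp [nbrs, src, tgt]
    · simp [nbrs, src, tgt]

lemma nbrs_symm {v w : ℤ × ℤ} (hw : w ∈ nbrs v) : v ∈ nbrs w := by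
  obtain ⟨e, h | h⟩ := nbrs_edge hw
  · rw [← h.1, ← h.2]; exact (edge_nbrs e).2
  · rw [← h.1, ← h.2]; exact (edge_nbrs e).1

/-- The ball of radius `N` about a vertex. -/
def ball : ℕ → ℤ × ℤ → Finset (ℤ × ℤ)
  | 0, v => {v}
  | N + 1, v => (ball N v).biUnion (fun w => insert w (nbrs w))

lemma ball_card (N : ℕ) (v : ℤ × ℤ) : (ball N v).card ≤ 5 ^ N := by
  induction N with
  | zero => simp [ball]
  | succ N ih =>
    rw [ball]
    refine Finset.card_biUnion_le.trans ?_
    calc ∑ w ∈ ball N v, (insert w (nbrs w)).card ≤ ∑ w ∈ ball N v, 5 := by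
          apply Finset.sum_le_sum
          intro w _
          refine (Finset.card_insert_le _ _).trans ?_
          have := nbrs_card w
          omega
      _ = (ball N v).card * 5 := by rw [Finset.sum_const, smul_eq_mul]
      _ ≤ 5 ^ N * 5 := by omega
      _ = 5 ^ (N + 1) := by ring

lemma mem_ball_self (N : ℕ) (v : ℤ × ℤ) : v ∈ ball N v := by
  induction N with
  | zero => simp [ball]
  | succ N ih =>
    rw [ball, Finset.mem_biUnion]
    exact ⟨v, ih, Finset.mem_insert_self _ _⟩

lemma ball_succ_mono (N : ℕ) (v : ℤ × ℤ) : ball N v ⊆ ball (N + 1) v := by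
  intro w hw
  rw [ball, Finset.mem_biUnion]
  exact ⟨w, hw, Finset.mem_insert_self _ _⟩

lemma ball_mono {N M : ℕ} (h : N ≤ M) (v : ℤ × ℤ) : ball N v ⊆ ball M v := by
  induction h with
  | refl => exact fun _ h => h
  | step _ ih => exact ih.trans (ball_succ_mono _ v)

lemma ball_step {N : ℕ} {u v w : ℤ × ℤ} (hv : v ∈ ball N u) (hw : w ∈ nbrs v) :
    w ∈ ball (N + 1) u := by
  rw [ball, Finset.mem_biUnion]
  exact ⟨v, hv, Finset.mem_insert_of_mem hw⟩

lemma ball_trans {N M : ℕ} {u v w : ℤ × ℤ} (hv : v ∈ ball N u) (hw : w ∈ ball M v) :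
    w ∈ ball (N + M) u := by
  induction M generalizing w with
  | zero =>
    simp only [ball, Finset.mem_singleton] at hw
    rw [hw]; exact hv
  | succ M ih =>
    rw [ball, Finset.mem_biUnion] at hw
    obtain ⟨w', hw', h⟩ := hw
    rw [Finset.mem_insert] at h
    rcases h with h | h
    · rw [h]; exact ball_succ_mono _ _ (ih hw')
    · exact ball_step (ih hw') h

lemma ball_symm {N : ℕ} {v w : ℤ × ℤ} (hw : w ∈ ball N v) : v ∈ ball N w := by
  induction N generalizing w with
  | zero =>
    simp only [ball, Finset.mem_singleton] at hw ⊢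
    exact hw.symm
  | succ N ih =>
    rw [ball, Finset.mem_biUnion] at hw
    obtain ⟨w', hw', h⟩ := hw
    rw [Finset.mem_insert] at h
    rcases h with h | h
    · rw [h]; exact ball_succ_mono _ _ (ih hw')
    · have h1 : w' ∈ ball 1 w := by
        have := ball_step (mem_ball_self 0 w) (nbrs_symm h)
        simpa using this
      have := ball_trans h1 (ih hw')
      rwa [add_comm] at this

lemma src_mem_ball_tgt (e : Edge) : e.src ∈ ball 1 e.tgt :=
  ball_step (mem_ball_self 0 _) (edge_nbrs e).2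

lemma tgt_mem_ball_src (e : Edge) : e.tgt ∈ ball 1 e.src :=
  ball_step (mem_ball_self 0 _) (edge_nbrs e).1

lemma exists_path {N : ℕ} {v w : ℤ × ℤ} (hw : w ∈ ball N v) :
    ∃ κ : C1, d1 κ = Finsupp.single v 1 + Finsupp.single w 1 ∧
      ∀ e ∈ κ.support, e.src ∈ ball N v := by
  classical
  induction N generalizing w with
  | zero =>
    simp only [ball, Finset.mem_singleton] at hw
    subst hw
    refine ⟨0, ?_, by simp⟩
    rw [map_zero, ← Finsupp.single_add, add_self0, Finsupp.single_zero]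
  | succ N ih =>
    have hwN := hw
    rw [ball, Finset.mem_biUnion] at hw
    obtain ⟨w', hw', h⟩ := hw
    rw [Finset.mem_insert] at h
    obtain ⟨κ, hκ, hκs⟩ := ih hw'
    rcases h with h | h
    · subst h
      exact ⟨κ, hκ, fun e he => ball_succ_mono _ _ (hκs e he)⟩
    · obtain ⟨e, he⟩ := nbrs_edge h
      refine ⟨κ + Finsupp.single e 1, ?_, ?_⟩
      · rw [map_add, hκ, d1_single]
        have h2 : (Finsupp.single w' (1 : ZMod 2)) + Finsupp.single w' 1 = 0 := by
          rw [← Finsupp.single_add, add_self0, Finsupp.single_zero]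
        rcases he with ⟨h3, h4⟩ | ⟨h3, h4⟩
        · rw [h3, h4]
          calc Finsupp.single v (1 : ZMod 2) + Finsupp.single w' 1 + (Finsupp.single w' 1 + Finsupp.single w 1)
              = Finsupp.single v 1 + (Finsupp.single w' 1 + Finsupp.single w' 1) + Finsupp.single w 1 := by
                abel
            _ = _ := by rw [h2, add_zero]
        · rw [h3, h4]
          calc Finsupp.single v (1 : ZMod 2) + Finsupp.single w' 1 + (Finsupp.single w 1 + Finsupp.single w' 1)
              = Finsupp.single v 1 + (Finsupp.single w' 1 + Finsupp.single w' 1) + Finsupp.single w 1 := by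
                abel
            _ = _ := by rw [h2, add_zero]
      · intro e' he'
        have h5 := Finsupp.support_add he'
        rw [Finset.mem_union] at h5
        rcases h5 with h5 | h5
        · exact ball_succ_mono _ _ (hκs e' h5)
        · have h6 := Finsupp.support_single_subset h5
          rw [Finset.mem_singleton] at h6
          subst h6
          rcases he with ⟨h3, h4⟩ | ⟨h3, h4⟩
          · rw [h3]; exact ball_succ_mono _ _ hw'
          · rw [h3]; exact hwN

/-- A 0-cycle supported in a ball is the boundary of a small chain. -/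
lemma exists_cone {R : ℕ} {v : ℤ × ℤ} (c : C0) (hc : aug c = 0)
    (hsupp : ∀ w ∈ c.support, w ∈ ball R v) :
    ∃ κ : C1, d1 κ = c ∧ ∀ e ∈ κ.support, e.src ∈ ball R v := by
  classical
  have hex : ∀ w : ℤ × ℤ, ∃ κ : C1, w ∈ ball R v →
      (d1 κ = Finsupp.single v 1 + Finsupp.single w 1 ∧ ∀ e ∈ κ.support, e.src ∈ ball R v) := by
    intro w
    by_cases hw : w ∈ ball R v
    · obtain ⟨κ, h⟩ := exists_path hw
      exact ⟨κ, fun _ => h⟩
    · exact ⟨0, fun h => absurd h hw⟩
  choose P hP using hex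
  refine ⟨∑ w ∈ c.support, c w • P w, ?_, ?_⟩
  · rw [map_sum]
    have h1 : ∀ w ∈ c.support, d1 (c w • P w) = Finsupp.single v (c w) + Finsupp.single w (c w) := by
      intro w hw
      rw [map_smul, (hP w (hsupp w hw)).1, smul_add, Finsupp.smul_single, Finsupp.smul_single,
        smul_eq_mul, mul_one]
    rw [Finset.sum_congr rfl h1, Finset.sum_add_distrib]
    have h2 : ∑ w ∈ c.support, Finsupp.single v (c w) = 0 := by
      have h3 : ∑ w ∈ c.support, c w = 0 := by
        rw [← hc]
        simp [aug, Finsupp.linearCombination_apply, Finsupp.sum]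
      rw [← Finsupp.single_finsetSum, h3, Finsupp.single_zero]
    rw [h2, zero_add]
    exact Finsupp.sum_single c
  · intro e he
    have h1 := Finsupp.support_finsetSum (M := ZMod 2) he
    rw [Finset.mem_biUnion] at h1
    obtain ⟨w, hw, h2⟩ := h1
    have h3 := Finsupp.support_smul h2
    exact (hP w (hsupp w hw)).2 e h3

end Pool.Agent.V8H67.Sol
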