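import Mathlib
import Pool.Agent.V8H67.Sol.Fill

/-!
# The folding lemma

A finite cycle in the binary tiling whose slices `{X = x}` are small for most `x` can be cut along
two slices `x₁ ≤ x₂` with `x₂ - x₁` small such that the part between them still winds around a given
face.
-/

set_option autoImplicit false

namespace Pool.Agent.V8H67.Sol

open Edge Finsupp

/-- The maximum of a function on the end points of an edge. -/
noncomputable def mx (X : ℤ × ℤ → ℝ) (e : Edge) : ℝ := max (X e.src) (X e.tgt)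
/-- The minimum of a function on the end points of an edge. -/
noncomputable def mn (X : ℤ × ℤ → ℝ) (e : Edge) : ℝ := min (X e.src) (X e.tgt)

lemma mn_le_mx (X : ℤ × ℤ → ℝ) (e : Edge) : mn X e ≤ mx X e := min_le_max

/-- The part of a chain to the right of `x`. -/
noncomputable def cut (X : ℤ × ℤ → ℝ) (z : C1) (x : ℝ) : C1 := by
  classical
  exact z.filter (fun e => x ≤ mx X e)

lemma d1_supp {y : C1} {v : ℤ × ℤ} (hv : d1 y v ≠ 0) : ∃ e ∈ y.support, e.src = v ∨ e.tgt = v := by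
  classical
  by_contra hcon
  push Not at hcon
  apply hv
  simp only [d1, Finsupp.linearCombination_apply, Finsupp.sum, Finsupp.coe_finsetSum,
    Finset.sum_apply]
  apply Finset.sum_eq_zero
  intro e he
  obtain ⟨h1, h2⟩ := hcon e he
  simp [h1, h2]

lemma cut_pos (X : ℤ × ℤ → ℝ) (z : C1) {x : ℝ} {e : Edge} (h : x ≤ mx X e) :
    cut X z x e = z e := by
  classical
  unfold cut
  exact Finsupp.filter_apply_pos (fun e => x ≤ mx X e) z h

lemma cut_neg (X : ℤ × ℤ → ℝ) (z : C1) {x : ℝ} {e : Edge} (h : ¬ x ≤ mx X e) :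
    cut X z x e = 0 := by
  classical
  unfold cut
  exact Finsupp.filter_apply_neg (fun e => x ≤ mx X e) z h

lemma cut_add (X : ℤ × ℤ → ℝ) (z : C1) (x : ℝ) :
    ∃ y : C1, z = cut X z x + y ∧ ∀ e ∈ y.support, mx X e < x := by
  classical
  refine ⟨z.filter (fun e => ¬ (x ≤ mx X e)), ?_, ?_⟩
  · unfold cut
    exact (Finsupp.filter_add_filter_not z (fun e => x ≤ mx X e)).symm
  · intro e he
    rw [Finsupp.support_filter, Finset.mem_filter] at he
    exact not_le.mp he.2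

lemma mem_cut {X : ℤ × ℤ → ℝ} {z : C1} {x : ℝ} {e : Edge} (he : e ∈ (cut X z x).support) :
    e ∈ z.support ∧ x ≤ mx X e := by
  classical
  unfold cut at he
  rw [Finsupp.support_filter, Finset.mem_filter] at he
  exact he

lemma d1_cut {X : ℤ × ℤ → ℝ} {z : C1} (hz : d1 z = 0) {x : ℝ} {v : ℤ × ℤ}
    (hv : v ∈ (d1 (cut X z x)).support) :
    ∃ e ∈ z.support, (e.src = v ∨ e.tgt = v) ∧ mn X e < x ∧ x ≤ mx X e := by
  rw [Finsupp.mem_support_iff] at hv
  obtain ⟨e, he, hev⟩ := d1_supp hv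
  obtain ⟨he1, he2⟩ := mem_cut he
  refine ⟨e, he1, hev, ?_, he2⟩
  by_contra hcon
  have hXv : x ≤ X v := by
    have h1 : x ≤ mn X e := not_lt.mp hcon
    rcases hev with h | h
    · rw [← h]; exact h1.trans (min_le_left _ _)
    · rw [← h]; exact h1.trans (min_le_right _ _)
  obtain ⟨y, hy, hy2⟩ := cut_add X z x
  have h3 : d1 (cut X z x) v + d1 y v = 0 := by
    rw [← Finsupp.add_apply, ← map_add, ← hy, hz]; rfl
  have h4 : d1 y v = 0 := by
    by_contra h5
    obtain ⟨e', he', hev'⟩ := d1_supp h5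
    have h6 := hy2 e' he'
    have h7 : X v ≤ mx X e' := by
      rcases hev' with h | h
      · rw [← h]; exact le_max_left _ _
      · rw [← h]; exact le_max_right _ _
    linarith
  rw [h4, add_zero] at h3
  exact hv h3

/-- Small correction chains. -/
def Adm (z : C1) (bad : Finset Edge) (R : ℕ) (κ : C1) : Prop :=
  κ = 0 ∨ ∃ e₀ ∈ z.support, e₀ ∉ bad ∧ ∀ e ∈ κ.support, e.src ∈ ball R e₀.src

/-- `x` is not crossed by bad edges. -/
def Free (X : ℤ × ℤ → ℝ) (z : C1) (bad : Finset Edge) (x : ℝ) : Prop :=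
  ∀ e ∈ z.support, mn X e < x → x ≤ mx X e → e ∉ bad

lemma slice_fill {X : ℤ × ℤ → ℝ} {z : C1} (hz : d1 z = 0) (bad : Finset Edge) {δ : ℕ} {x : ℝ}
    (hx : Free X z bad x)
    (hgood : ∀ e ∈ z.support, ∀ e' ∈ z.support, mn X e < x → x ≤ mx X e → mn X e' < x →
      x ≤ mx X e' → e'.src ∈ ball δ e.src) :
    ∃ κ : C1, ∃ B : C2, Adm z bad (δ + 1) κ ∧ d2 B = cut X z x + κ := by
  by_cases h0 : ∃ e₀ ∈ z.support, mn X e₀ < x ∧ x ≤ mx X e₀
  · obtain ⟨e₀, he₀, h1, h2⟩ := h0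
    have hsupp : ∀ w ∈ (d1 (cut X z x)).support, w ∈ ball (δ + 1) e₀.src := by
      intro w hw
      obtain ⟨e, he, hew, h3, h4⟩ := d1_cut hz hw
      have h5 := hgood e₀ he₀ e he h1 h2 h3 h4
      rcases hew with h | h
      · rw [← h]; exact ball_succ_mono _ _ h5
      · rw [← h]; exact ball_trans h5 (tgt_mem_ball_src e)
    obtain ⟨κ, hκ, hκs⟩ := exists_cone (d1 (cut X z x)) (aug_d1 _) hsupp
    obtain ⟨B, hB⟩ := exists_fill (cut X z x + κ) (by
      rw [map_add, hκ]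
      ext v
      simp only [Finsupp.add_apply, Finsupp.coe_zero, Pi.zero_apply]
      exact add_self0 _)
    exact ⟨κ, B, Or.inr ⟨e₀, he₀, hx e₀ he₀ h1 h2, hκs⟩, hB⟩
  · have h1 : d1 (cut X z x) = 0 := by
      by_contra hne
      obtain ⟨w, hw⟩ := Finsupp.support_nonempty_iff.mpr hne
      obtain ⟨e, he, _, h3, h4⟩ := d1_cut hz hw
      exact h0 ⟨e, he, h3, h4⟩
    obtain ⟨B, hB⟩ := exists_fill (cut X z x) h1
    exact ⟨0, B, Or.inl rfl, by rw [hB, add_zero]⟩

/-- Covering an interval by finitely many intervals. -/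
lemma cover {ι : Type*} (s : Finset ι) (lo hi : ι → ℝ) (hlh : ∀ i ∈ s, lo i ≤ hi i) (α β : ℝ)
    (h : ∀ x, α < x → x < β → ∃ i ∈ s, lo i < x ∧ x ≤ hi i) :
    β - α ≤ ∑ i ∈ s, (hi i - lo i) := by
  have h0 : 0 ≤ ∑ i ∈ s, (hi i - lo i) := Finset.sum_nonneg (fun i hi' => by
    have := hlh i hi'; linarith)
  by_cases hab : β ≤ α
  · linarith
  · have h1 : Set.Ioo α β ⊆ ⋃ i ∈ s, Set.Ioc (lo i) (hi i) := by
      intro x hx
      obtain ⟨i, his, h2, h3⟩ := h x hx.1 hx.2
      simp only [Set.mem_iUnion]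
      exact ⟨i, his, h2, h3⟩
    have h2 := (MeasureTheory.measure_mono (μ := MeasureTheory.volume) h1).trans
      (MeasureTheory.measure_biUnion_finset_le s _)
    rw [Real.volume_Ioo] at h2
    simp only [Real.volume_Ioc] at h2
    rw [← ENNReal.ofReal_sum_of_nonneg (fun i hi' => by have := hlh i hi'; linarith)] at h2
    exact (ENNReal.ofReal_le_ofReal_iff h0).mp h2

theorem fold (X : ℤ × ℤ → ℝ) (A : C2) (p : ℤ × ℤ) (hp : A p = 1) (δ : ℕ) (bad : Finset Edge)
    (hgood : ∀ x : ℝ, Free X (d2 A) bad x →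
      ∀ e ∈ (d2 A).support, ∀ e' ∈ (d2 A).support, mn X e < x → x ≤ mx X e → mn X e' < x →
      x ≤ mx X e' → e'.src ∈ ball δ e.src) (ε : ℝ) (hε : 0 < ε) :
    ∃ x₁ x₂ : ℝ, ∃ κ₁ κ₂ : C1, ∃ Ω : C2, x₁ ≤ x₂ ∧
      x₂ - x₁ ≤ ∑ e ∈ bad, (mx X e - mn X e) + ε ∧ Ω p = 1 ∧
      Adm (d2 A) bad (δ + 1) κ₁ ∧ Adm (d2 A) bad (δ + 1) κ₂ ∧
      (∀ e, d2 Ω e ≠ 0 → (e ∈ (d2 A).support ∧ x₁ ≤ mx X e ∧ mx X e < x₂) ∨ e ∈ κ₁.support ∨
        e ∈ κ₂.support) := by
  classical
  set z := d2 A with hzdef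
  have hz : d1 z = 0 := d1_d2 A
  -- the two alternatives at a slice
  let Q : ℝ → ZMod 2 → Prop := fun x b =>
    ∃ κ : C1, ∃ B : C2, Adm z bad (δ + 1) κ ∧ d2 B = cut X z x + κ ∧ B p = b
  have hQ : ∀ x, Free X z bad x → Q x 1 ∨ Q x 0 := by
    intro x hx
    obtain ⟨κ, B, h1, h2⟩ := slice_fill hz bad hx (hgood x hx)
    by_cases hB : B p = 0
    · exact Or.inr ⟨κ, B, h1, h2, hB⟩
    · exact Or.inl ⟨κ, B, h1, h2, (ne_zero_iff _).mp hB⟩
  -- a point to the left of everything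
  obtain ⟨a, ha⟩ : ∃ a : ℝ, ∀ e ∈ z.support, a ≤ mn X e := by
    refine ⟨-∑ e ∈ z.support, |mn X e|, fun e he => ?_⟩
    have h1 : |mn X e| ≤ ∑ e ∈ z.support, |mn X e| :=
      Finset.single_le_sum (f := fun e => |mn X e|) (fun _ _ => abs_nonneg _) he
    have h2 := neg_abs_le (mn X e)
    linarith
  obtain ⟨b, hb, hab⟩ : ∃ b : ℝ, (∀ e ∈ z.support, mx X e < b) ∧ a ≤ b := by
    refine ⟨|a| + ∑ e ∈ z.support, |mx X e| + 1, fun e he => ?_, ?_⟩
    · have h1 : |mx X e| ≤ ∑ e ∈ z.support, |mx X e| :=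
        Finset.single_le_sum (f := fun e => |mx X e|) (fun _ _ => abs_nonneg _) he
      have h2 := le_abs_self (mx X e)
      have h3 := abs_nonneg a
      linarith
    · have h1 : 0 ≤ ∑ e ∈ z.support, |mx X e| := Finset.sum_nonneg (fun _ _ => abs_nonneg _)
      have h2 := le_abs_self a
      linarith
  have hFa : Free X z bad a := fun e he h1 _ => absurd (ha e he) (not_le.mpr h1)
  have hFb : Free X z bad b := fun e he _ h2 => absurd (hb e he) (not_lt.mpr h2)
  have hQa : Q a 1 := by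
    refine ⟨0, A, Or.inl rfl, ?_, hp⟩
    rw [add_zero]
    obtain ⟨y, hy, hy2⟩ := cut_add X z a
    have hy0 : y = 0 := by
      by_contra hne
      obtain ⟨e, he⟩ := Finsupp.support_nonempty_iff.mpr hne
      have h1 := hy2 e he
      have h2 : z e ≠ 0 := by
        have hce : cut X z a e = 0 := by
          by_contra h3
          have := (mem_cut (Finsupp.mem_support_iff.mpr h3)).2
          linarith
        rw [hy, Finsupp.add_apply, hce, zero_add]
        exact Finsupp.mem_support_iff.mp he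
      have h3 := ha e (Finsupp.mem_support_iff.mpr h2)
      have h4 := mn_le_mx X e
      linarith
    rw [hy0, add_zero] at hy
    exact hy
  have hQb : Q b 0 := by
    refine ⟨0, 0, Or.inl rfl, ?_, rfl⟩
    rw [add_zero, map_zero]
    by_contra hne
    obtain ⟨e, he⟩ := Finsupp.support_nonempty_iff.mpr (Ne.symm hne)
    obtain ⟨h1, h2⟩ := mem_cut he
    have := hb e h1
    linarith
  -- choose the slices
  let S₁ : Set ℝ := {x | a ≤ x ∧ x ≤ b ∧ Free X z bad x ∧ Q x 1}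
  have hS1ne : S₁.Nonempty := ⟨a, le_refl _, hab, hFa, hQa⟩
  have hS1bd : BddAbove S₁ := ⟨b, fun x hx => hx.2.1⟩
  obtain ⟨x₁, hx₁, hx₁'⟩ := exists_lt_of_lt_csSup hS1ne (show sSup S₁ - ε / 2 < sSup S₁ by linarith)
  have hx₁'' : x₁ ≤ sSup S₁ := le_csSup hS1bd hx₁
  let S₂ : Set ℝ := {x | x₁ ≤ x ∧ x ≤ b ∧ Free X z bad x ∧ Q x 0}
  have hS2ne : S₂.Nonempty := ⟨b, hx₁.2.1, le_refl _, hFb, hQb⟩
  have hS2bd : BddBelow S₂ := ⟨x₁, fun x hx => hx.1⟩
  obtain ⟨x₂, hx₂, hx₂'⟩ := exists_lt_of_csInf_lt hS2ne (show sInf S₂ < sInf S₂ + ε / 2 by linarith)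
  have hbS : sInf S₂ ≤ b := csInf_le hS2bd ⟨hx₁.2.1, le_refl _, hFb, hQb⟩
  have hcov : sInf S₂ - sSup S₁ ≤ ∑ e ∈ bad, (mx X e - mn X e) := by
    apply cover bad (mn X) (mx X) (fun e _ => mn_le_mx X e)
    intro x hx1 hx2
    by_contra hcon
    push Not at hcon
    have hfree : Free X z bad x := by
      intro e he h1 h2 h3
      have := hcon e h3 h1
      linarith
    rcases hQ x hfree with h | h
    · have : x ∈ S₁ := ⟨by linarith [hx₁.1], by linarith, hfree, h⟩
      have := le_csSup hS1bd this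
      linarith
    · have : x ∈ S₂ := ⟨by linarith, by linarith, hfree, h⟩
      have := csInf_le hS2bd this
      linarith
  obtain ⟨κ₁, B₁, hκ₁, hB₁, hB₁p⟩ := hx₁.2.2.2
  obtain ⟨κ₂, B₂, hκ₂, hB₂, hB₂p⟩ := hx₂.2.2.2
  refine ⟨x₁, x₂, κ₁, κ₂, B₁ + B₂, hx₂.1, by linarith, ?_, hκ₁, hκ₂, ?_⟩
  · rw [Finsupp.add_apply, hB₁p, hB₂p, add_zero]
  · intro e he
    rw [map_add, hB₁, hB₂] at he
    simp only [Finsupp.add_apply] at he
    by_cases h1 : κ₁ e = 0
    · by_cases h2 : κ₂ e = 0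
      · left
        rw [h1, h2, add_zero, add_zero] at he
        by_cases h3 : x₁ ≤ mx X e
        · by_cases h4 : x₂ ≤ mx X e
          · exfalso
            apply he
            have h5 : cut X z x₁ e = z e := cut_pos X z h3
            have h6 : cut X z x₂ e = z e := cut_pos X z h4
            rw [h5, h6]
            exact add_self0 _
          · have h6 : cut X z x₂ e = 0 := cut_neg X z h4
            have h5 : cut X z x₁ e = z e := cut_pos X z h3
            rw [h5, h6, add_zero] at he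
            exact ⟨Finsupp.mem_support_iff.mpr he, h3, not_le.mp h4⟩
        · exfalso
          have h4 : ¬ x₂ ≤ mx X e := fun h => h3 (hx₂.1.trans h)
          have h5 : cut X z x₁ e = 0 := cut_neg X z h3
          have h6 : cut X z x₂ e = 0 := cut_neg X z h4
          exact he (by rw [h5, h6, add_zero])
      · exact Or.inr (Or.inr (Finsupp.mem_support_iff.mpr h2))
    · exact Or.inr (Or.inl (Finsupp.mem_support_iff.mpr h1))

end Pool.Agent.V8H67.Sol
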