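import Mathlib
import Pool.Agent.V8H67.Sol.Fold

/-!
# The combinatorial data and the counting lemmas
-/

set_option autoImplicit false

namespace Pool.Agent.V8H67.Sol

open Edge Finsupp Real

/-- The coordinates of a map from the vertices of the binary tiling to the upper half of Sol,
with the estimates which follow if the map is a quasi-isometric embedding. -/
structure Dat where
  X : ℤ × ℤ → ℝ
  Y : ℤ × ℤ → ℝ
  T : ℤ × ℤ → ℝ
  p : ℤ × ℤ
  c : ℕ
  hc : 1 ≤ c
  T0 : ∀ v, 0 ≤ T v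
  A2T : ∀ e : Edge, ∀ w, w = e.tgt ∨ w = e.lf → |T w - T e.src| ≤ c
  A2X : ∀ e : Edge, ∀ w, w = e.tgt ∨ w = e.lf → |X w - X e.src| ≤ c * exp (-T e.src)
  A2Y : ∀ e : Edge, ∀ w, w = e.tgt ∨ w = e.lf → |Y w - Y e.src| ≤ c * exp (T e.src)
  A3 : ∀ m : ℝ, ∃ δ : ℕ, ∀ L : ℝ, ∀ u v, |T u - L| ≤ m → |T v - L| ≤ m →
    |Y u - Y v| ≤ exp (L + m) → |X u - X v| ≤ exp (m - L) → v ∈ ball δ u
  A4 : ∃ C : ℝ, ∀ L : ℝ, 0 ≤ L → ∃ S : Finset (ℤ × ℤ),
    (∀ v, T v ≤ L → |Y v - Y p| ≤ exp L → v ∈ S) ∧ (S.card : ℝ) ≤ C * (1 + L) ^ 2 * exp L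

namespace Dat

variable (D : Dat)

/-- `exp c` -/
noncomputable def E : ℝ := exp D.c
/-- The factor by which `G` may change along an edge. -/
noncomputable def lam : ℝ := 1 + (D.c + D.E) * D.E
/-- The factor in the far condition. -/
noncomputable def Lam : ℝ := D.lam + 2 * D.c + 1
/-- The size function. -/
noncomputable def G (v : ℤ × ℤ) : ℝ := |D.Y v - D.Y D.p| + exp (D.T v)

lemma c1 : (1 : ℝ) ≤ D.c := by exact_mod_cast D.hc

lemma E1 : 1 ≤ D.E := one_le_exp (by have := D.c1; linarith)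

lemma Epos : 0 < D.E := exp_pos _

lemma lam1 : 1 ≤ D.lam := by
  have := D.E1; have := D.c1
  unfold lam
  nlinarith

lemma Lam1 : 1 ≤ D.Lam := by
  have := D.lam1; have := D.c1
  unfold Lam
  linarith

lemma expT_le_G (v : ℤ × ℤ) : exp (D.T v) ≤ D.G v := by
  unfold G
  have := abs_nonneg (D.Y v - D.Y D.p)
  linarith

lemma Y_le_G (v : ℤ × ℤ) : |D.Y v - D.Y D.p| ≤ D.G v := by
  unfold G
  have := exp_pos (D.T v)
  linarith

lemma G_pos (v : ℤ × ℤ) : 0 < D.G v := lt_of_lt_of_le (exp_pos _) (D.expT_le_G v)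

lemma expT_step {e : Edge} {w : ℤ × ℤ} (hw : w = e.tgt ∨ w = e.lf) :
    exp (D.T w) ≤ D.E * exp (D.T e.src) ∧ exp (D.T e.src) ≤ D.E * exp (D.T w) := by
  have h := abs_le.mp (D.A2T e w hw)
  unfold E
  rw [← exp_add, ← exp_add]
  constructor
  · exact exp_le_exp.mpr (by linarith)
  · exact exp_le_exp.mpr (by linarith)

lemma G_diff {e : Edge} {w : ℤ × ℤ} (hw : w = e.tgt ∨ w = e.lf) :
    |D.G w - D.G e.src| ≤ (D.c + D.E) * exp (D.T e.src) := by
  obtain ⟨h1, h2⟩ := D.expT_step hw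
  have h3 := D.A2Y e w hw
  have h4 : abs (|D.Y w - D.Y D.p| - |D.Y e.src - D.Y D.p|) ≤ |D.Y w - D.Y e.src| := by
    have := abs_abs_sub_abs_le_abs_sub (D.Y w - D.Y D.p) (D.Y e.src - D.Y D.p)
    have h5 : D.Y w - D.Y D.p - (D.Y e.src - D.Y D.p) = D.Y w - D.Y e.src := by ring
    rwa [h5] at this
  have h5 := exp_pos (D.T w)
  have h6 := exp_pos (D.T e.src)
  have h7 := D.E1
  have h8 := abs_le.mp (h4.trans h3)
  unfold G
  rw [abs_le]
  constructor
  · nlinarith
  · nlinarith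

lemma G_le {e : Edge} {w : ℤ × ℤ} (hw : w = e.tgt ∨ w = e.lf) :
    D.G w ≤ D.lam * D.G e.src ∧ D.G e.src ≤ D.lam * D.G w := by
  obtain ⟨h1, h2⟩ := D.expT_step hw
  have h3 := abs_le.mp (D.G_diff hw)
  have h4 := D.expT_le_G w
  have h5 := D.expT_le_G e.src
  have h6 := D.E1
  have h7 := D.c1
  have h8 := D.G_pos w
  have h9 := D.G_pos e.src
  have h10 : 0 ≤ (D.c : ℝ) + D.E := by linarith
  unfold lam
  constructor
  · have h11 : (D.c + D.E) * exp (D.T e.src) ≤ (D.c + D.E) * D.G e.src :=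
      mul_le_mul_of_nonneg_left h5 h10
    have h12 : (D.c + D.E) * D.G e.src ≤ (D.c + D.E) * D.E * D.G e.src := by
      have : (D.c + D.E) * D.G e.src * 1 ≤ (D.c + D.E) * D.G e.src * D.E :=
        mul_le_mul_of_nonneg_left h6 (by positivity)
      linarith
    linarith
  · have h11 : (D.c + D.E) * exp (D.T e.src) ≤ (D.c + D.E) * (D.E * exp (D.T w)) :=
      mul_le_mul_of_nonneg_left h2 h10
    have h12 : (D.c + D.E) * (D.E * exp (D.T w)) ≤ (D.c + D.E) * (D.E * D.G w) := by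
      apply mul_le_mul_of_nonneg_left _ h10
      exact mul_le_mul_of_nonneg_left h4 (by linarith)
    linarith

lemma T_ball {N : ℕ} {v w : ℤ × ℤ} (hw : w ∈ ball N v) : |D.T w - D.T v| ≤ D.c * N := by
  induction N generalizing w with
  | zero =>
    simp only [ball, Finset.mem_singleton] at hw
    subst hw
    simp
  | succ N ih =>
    rw [ball, Finset.mem_biUnion] at hw
    obtain ⟨w', hw', h⟩ := hw
    rw [Finset.mem_insert] at h
    have h1 := ih hw'
    have hc := D.c1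
    rcases h with h | h
    · subst h
      push_cast
      nlinarith
    · have h2 : |D.T w - D.T w'| ≤ D.c := by
        obtain ⟨e, he⟩ := nbrs_edge h
        rcases he with ⟨h3, h4⟩ | ⟨h3, h4⟩
        · have := D.A2T e w (Or.inl h4.symm)
          rwa [h3] at this
        · have := D.A2T e w' (Or.inl h4.symm)
          rw [h3] at this
          rwa [abs_sub_comm]
      have h3 := abs_sub_le (D.T w) (D.T w') (D.T v)
      push_cast
      linarith

end Dat

/-! ### Ancestors -/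

/-- The ancestor of a face. -/
def anc (i : ℕ) (g : ℤ × ℤ) : ℤ × ℤ := (g.1 - i, g.2 / 2 ^ i)

lemma anc_zero (g : ℤ × ℤ) : anc 0 g = g := by simp [anc]

lemma anc_succ (i : ℕ) (g : ℤ × ℤ) : anc (i + 1) g = anc i (Edge.h g.1 g.2).lf := by
  simp only [anc, lf, Prod.mk.injEq]
  constructor
  · push_cast; ring
  · rw [pow_succ, mul_comm, Int.ediv_ediv_of_nonneg (by norm_num)]

lemma card_anc (ρ : ℕ) (S Ω : Finset (ℤ × ℤ)) (hS : ∀ g, anc ρ g ∈ S → g ∈ Ω) :
    2 ^ ρ * S.card ≤ Ω.card := by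
  classical
  have h1 : (S ×ˢ Finset.range (2 ^ ρ)).card ≤ Ω.card := by
    have hpos : (0 : ℤ) < 2 ^ ρ := by positivity
    apply Finset.card_le_card_of_injOn
      (fun fj : (ℤ × ℤ) × ℕ => ((fj.1.1 + ρ, 2 ^ ρ * fj.1.2 + fj.2) : ℤ × ℤ))
    · rintro ⟨⟨n, k⟩, j⟩ hfj
      rw [Finset.mem_coe, Finset.mem_product, Finset.mem_range] at hfj
      rw [Finset.mem_coe]
      apply hS
      have hj : (j : ℤ) < 2 ^ ρ := by exact_mod_cast hfj.2
      have h2 : anc ρ (n + ρ, 2 ^ ρ * k + j) = (n, k) := by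
        simp only [anc, Prod.mk.injEq]
        constructor
        · ring
        · rw [Int.mul_add_ediv_left _ _ hpos.ne', Int.ediv_eq_zero_of_lt (by positivity) hj, add_zero]
      rw [h2]
      exact hfj.1
    · rintro ⟨⟨n, k⟩, j⟩ hfj ⟨⟨n', k'⟩, j'⟩ hfj' heq
      rw [Finset.mem_coe, Finset.mem_product, Finset.mem_range] at hfj hfj'
      simp only [Prod.mk.injEq] at heq
      have hj : (j : ℤ) < 2 ^ ρ := by exact_mod_cast hfj.2
      have hj' : (j' : ℤ) < 2 ^ ρ := by exact_mod_cast hfj'.2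
      have hn : n = n' := by omega
      have hk : k = k' := by
        have h3 : (2 ^ ρ * k + (j : ℤ)) / 2 ^ ρ = k := by
          rw [Int.mul_add_ediv_left _ _ hpos.ne', Int.ediv_eq_zero_of_lt (by positivity) hj, add_zero]
        have h4 : (2 ^ ρ * k' + (j' : ℤ)) / 2 ^ ρ = k' := by
          rw [Int.mul_add_ediv_left _ _ hpos.ne', Int.ediv_eq_zero_of_lt (by positivity) hj', add_zero]
        rw [← h3, ← h4, heq.2]
      subst hn
      subst hk
      have hjj : (j : ℤ) = j' := by linarith [heq.2]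
      have hjj' : j = j' := by exact_mod_cast hjj
      subst hjj'
      rfl
  rw [Finset.card_product, Finset.card_range] at h1
  linarith

namespace Dat

variable (D : Dat)

lemma walk {Ω : C2} {Sp : Finset Edge} {Θ L B : ℝ} {f : ℤ × ℤ} {ρ : ℕ}
    (hbd : ∀ e ∈ (d2 Ω).support, e ∈ Sp ∨ (Θ < D.G e.src ∧ Θ < D.G e.lf))
    (hf : f ∈ Ω.support) (hT : D.T f + D.c * ρ ≤ L) (hY : |D.Y f - D.Y D.p| ≤ B)
    (hΘ : B + 2 * D.c * exp L + exp L ≤ Θ)
    (hns : ∀ i, i ≤ ρ → ∀ g, anc i g = f → D.T g ≤ L → Edge.h g.1 g.2 ∉ Sp) :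
    ∀ i, i ≤ ρ → ∀ g, anc i g = f → g ∈ Ω.support := by
  have key : ∀ i, i ≤ ρ → ∀ g, anc i g = f → g ∈ Ω.support ∧ D.T g ≤ D.T f + D.c * i ∧
      |D.Y g - D.Y D.p| ≤ B + 2 * D.c * exp (D.T f + D.c * i) := by
    intro i
    induction i with
    | zero =>
      intro _ g hg
      rw [anc_zero] at hg
      subst hg
      refine ⟨hf, by simp, ?_⟩
      have h1 := exp_pos (D.T g + D.c * ((0 : ℕ) : ℝ))
      have h2 := D.c1
      nlinarith
    | succ i ih =>
      intro hi g hg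
      rw [anc_succ] at hg
      obtain ⟨h1, h2, h3⟩ := ih (by omega) _ hg
      set e := Edge.h g.1 g.2 with he
      have hsrc : e.src = g := rfl
      have h4 := abs_le.mp (D.A2T e e.lf (Or.inr rfl))
      have h5 := D.A2Y e e.lf (Or.inr rfl)
      rw [hsrc] at h4 h5
      have h6 : D.T g ≤ D.T f + D.c * ((i + 1 : ℕ) : ℝ) := by
        push_cast
        linarith [h4.1]
      have hc := D.c1
      have h7 : D.T g ≤ L := by
        have : (D.c : ℝ) * ((i + 1 : ℕ) : ℝ) ≤ D.c * ρ :=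
          mul_le_mul_of_nonneg_left (by exact_mod_cast hi) (by linarith)
        linarith
      have h8 : |D.Y g - D.Y D.p| ≤ B + 2 * D.c * exp (D.T f + D.c * ((i + 1 : ℕ) : ℝ)) := by
        have h9 : |D.Y g - D.Y D.p| ≤ |D.Y g - D.Y e.lf| + |D.Y e.lf - D.Y D.p| := abs_sub_le _ _ _
        rw [abs_sub_comm] at h5
        have h10 : exp (D.T g) ≤ exp (D.T f + D.c * ((i + 1 : ℕ) : ℝ)) := exp_le_exp.mpr h6
        have h11 : 2 * exp (D.T f + D.c * (i : ℝ)) ≤ exp (D.T f + D.c * ((i + 1 : ℕ) : ℝ)) := by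
          have h12 : exp (D.T f + D.c * ((i + 1 : ℕ) : ℝ)) = exp (D.T f + D.c * (i : ℝ)) * exp (D.c) := by
            rw [← exp_add]
            congr 1
            push_cast
            ring
          rw [h12]
          have h13 : (2 : ℝ) ≤ exp (D.c) := by
            have := add_one_le_exp (D.c : ℝ)
            linarith
          have h14 := exp_pos (D.T f + D.c * (i : ℝ))
          nlinarith
        nlinarith
      refine ⟨?_, h6, h8⟩
      by_contra hg2
      have hmem : e ∈ (d2 Ω).support := by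
        rw [Finsupp.mem_support_iff, d2_apply, hsrc]
        rw [Finsupp.mem_support_iff, not_not] at hg2
        rw [hg2, zero_add]
        exact Finsupp.mem_support_iff.mp h1
      rcases hbd e hmem with h9 | h9
      · exact hns (i + 1) hi g (by rw [anc_succ]; exact hg) h7 h9
      · have h10 := h9.1
        rw [hsrc] at h10
        unfold G at h10
        have h11 : exp (D.T g) ≤ exp L := exp_le_exp.mpr h7
        have h12 : exp (D.T f + D.c * ((i + 1 : ℕ) : ℝ)) ≤ exp L := by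
          apply exp_le_exp.mpr
          have : (D.c : ℝ) * ((i + 1 : ℕ) : ℝ) ≤ D.c * ρ :=
            mul_le_mul_of_nonneg_left (by exact_mod_cast hi) (by linarith)
          linarith
        nlinarith
  intro i hi g hg
  exact (key i hi g hg).1

end Dat

/-! ### Choosing a level -/

open MeasureTheory in
lemma exists_level {ι : Type*} (s : Finset ι) (lo hi w : ι → ℝ) (hlh : ∀ i ∈ s, lo i ≤ hi i)
    (hw : ∀ i ∈ s, 0 ≤ w i) (a b : ℝ) (hab : a < b) :
    ∃ r, a ≤ r ∧ r ≤ b ∧ (b - a) * (∑ i ∈ s, if lo i ≤ r ∧ r < hi i then w i else 0) ≤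
      ∑ i ∈ s, w i * (hi i - lo i) := by
  classical
  let f : ℝ → ℝ := fun r => ∑ i ∈ s, (Set.Ico (lo i) (hi i)).indicator (fun _ => w i) r
  have hint : ∀ i ∈ s, IntegrableOn (fun r => (Set.Ico (lo i) (hi i)).indicator (fun _ => w i) r)
      (Set.Icc a b) volume := by
    intro i _
    apply IntegrableOn.indicator _ measurableSet_Ico
    exact integrableOn_const (by simp)
  have hf : IntegrableOn f (Set.Icc a b) volume := integrable_finsetSum _ hint
  have h0 : volume (Set.Icc a b) ≠ 0 := by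
    rw [Real.volume_Icc]
    simp
    linarith
  have h1 : volume (Set.Icc a b) ≠ ⊤ := by
    rw [Real.volume_Icc]
    simp
  obtain ⟨r, hr, hr2⟩ := exists_le_setAverage h0 h1 hf
  refine ⟨r, hr.1, hr.2, ?_⟩
  have hfr : f r = ∑ i ∈ s, if lo i ≤ r ∧ r < hi i then w i else 0 := by
    apply Finset.sum_congr rfl
    intro i _
    rw [Set.indicator_apply]
    simp only [Set.mem_Ico]
  rw [← hfr]
  have hav : ⨍ x in Set.Icc a b, f x = (b - a)⁻¹ * ∫ x in Set.Icc a b, f x := by
    rw [setAverage_eq, smul_eq_mul, Real.volume_real_Icc_of_le hab.le]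
  rw [hav] at hr2
  have hpos : 0 < b - a := by linarith
  have h2 : (b - a) * f r ≤ ∫ x in Set.Icc a b, f x := by
    calc (b - a) * f r ≤ (b - a) * ((b - a)⁻¹ * ∫ x in Set.Icc a b, f x) :=
          mul_le_mul_of_nonneg_left hr2 hpos.le
      _ = ∫ x in Set.Icc a b, f x := by field_simp
  refine h2.trans ?_
  rw [integral_finsetSum _ hint]
  apply Finset.sum_le_sum
  intro i hi'
  rw [setIntegral_indicator measurableSet_Ico, setIntegral_const, smul_eq_mul, mul_comm]
  apply mul_le_mul_of_nonneg_left _ (hw i hi')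
  calc volume.real (Set.Icc a b ∩ Set.Ico (lo i) (hi i)) ≤ volume.real (Set.Ico (lo i) (hi i)) := by
        apply measureReal_mono Set.inter_subset_right _
        rw [Real.volume_Ico]
        exact ENNReal.ofReal_ne_top
    _ = hi i - lo i := by rw [Real.volume_real_Ico_of_le (hlh i hi')]

end Pool.Agent.V8H67.Sol
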