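import Mathlib
import Pool.Agent.V8H67.Sol.Dat

/-!
# Counting vertices in boxes of Sol
-/

set_option autoImplicit false

namespace Pool.Agent.V8H67.Sol

open Edge Finsupp Real

lemma cell_count' (X Y T : ℤ × ℤ → ℝ) (A3 : ∀ m : ℝ, ∃ δ : ℕ, ∀ L : ℝ, ∀ u v, |T u - L| ≤ m →
    |T v - L| ≤ m → |Y u - Y v| ≤ exp (L + m) → |X u - X v| ≤ exp (m - L) → v ∈ ball δ u) :
    ∃ K : ℕ, 1 ≤ K ∧ ∀ (S : Finset (ℤ × ℤ)) (t₁ t₂ a W b V : ℝ), 0 ≤ W → 0 ≤ V →
    t₁ ≤ t₂ → (∀ v ∈ S, t₁ ≤ T v ∧ T v ≤ t₂ ∧ a ≤ X v ∧ X v ≤ a + W ∧ b ≤ Y v ∧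
      Y v ≤ b + V) →
    (S.card : ℝ) ≤ K * ((t₂ - t₁ + 2) * (W * V + 2 * W * exp t₂ + 2 * V * exp (1 - t₁) + 4)) := by
  classical
  obtain ⟨δ, hδ⟩ := A3 1
  refine ⟨5 ^ δ, Nat.one_le_pow _ _ (by norm_num), ?_⟩
  intro S t₁ t₂ a W b V hW hV ht hS
  let φ : ℤ × ℤ → ℤ × ℤ × ℤ := fun v =>
    (⌊T v⌋, ⌊X v * exp (⌊T v⌋ : ℤ)⌋, ⌊Y v * exp (-(⌊T v⌋ : ℤ))⌋)
  have hfib : ∀ a ∈ S.image φ, (S.filter (fun x => φ x = a)).card ≤ 5 ^ δ := by
    intro y hy
    rw [Finset.mem_image] at hy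
    obtain ⟨v, hv, rfl⟩ := hy
    refine le_trans (Finset.card_le_card ?_) (ball_card δ v)
    intro w hw
    rw [Finset.mem_filter] at hw
    obtain ⟨_, hw⟩ := hw
    simp only [φ, Prod.mk.injEq] at hw
    obtain ⟨h1, h2, h3⟩ := hw
    rw [h1] at h2 h3
    set i := ⌊T v⌋ with hi
    have hv1 := Int.floor_le (T v)
    have hv2 := Int.lt_floor_add_one (T v)
    have hw1 := Int.floor_le (T w)
    have hw2 := Int.lt_floor_add_one (T w)
    rw [← hi] at hv1 hv2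
    rw [h1] at hw1 hw2
    have hX := Int.abs_sub_lt_one_of_floor_eq_floor h2
    have hY := Int.abs_sub_lt_one_of_floor_eq_floor h3
    have hei : (0 : ℝ) < exp (i : ℤ) := exp_pos _
    have hemi : (0 : ℝ) < exp (-(i : ℤ)) := exp_pos _
    have hmul : exp (-((i : ℤ) : ℝ)) * exp ((i : ℤ) : ℝ) = 1 := by
      rw [← exp_add]; simp
    rw [← sub_mul, abs_mul, abs_of_pos hei] at hX
    rw [← sub_mul, abs_mul, abs_of_pos hemi] at hY
    apply hδ (i : ℤ) v w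
    · rw [abs_le]; constructor <;> linarith
    · rw [abs_le]; constructor <;> linarith
    · rw [abs_sub_comm]
      have h4 : |Y w - Y v| ≤ exp ((i : ℤ) : ℝ) := by
        have h5 : |Y w - Y v| = |Y w - Y v| * exp (-((i : ℤ) : ℝ)) * exp ((i : ℤ) : ℝ) := by
          rw [mul_assoc, hmul, mul_one]
        rw [h5]
        nlinarith
      exact h4.trans (exp_le_exp.mpr (by linarith))
    · rw [abs_sub_comm]
      have h4 : |X w - X v| ≤ exp (-((i : ℤ) : ℝ)) := by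
        have h5 : |X w - X v| = |X w - X v| * exp ((i : ℤ) : ℝ) * exp (-((i : ℤ) : ℝ)) := by
          rw [mul_assoc, mul_comm (exp ((i : ℤ) : ℝ)), hmul, mul_one]
        rw [h5]
        nlinarith
      exact h4.trans (exp_le_exp.mpr (by linarith))
  have h1 := Finset.card_le_mul_card_image S (5 ^ δ) hfib
  -- the image lies in a finite union of boxes
  let J : ℤ → Finset (ℤ × ℤ × ℤ) := fun i =>
    ({i} : Finset ℤ) ×ˢ ((Finset.Icc ⌊a * exp (i : ℤ)⌋ ⌊(a + W) * exp (i : ℤ)⌋) ×ˢ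
      (Finset.Icc ⌊b * exp (-(i : ℤ))⌋ ⌊(b + V) * exp (-(i : ℤ))⌋))
  have h2 : S.image φ ⊆ (Finset.Icc ⌊t₁⌋ ⌊t₂⌋).biUnion J := by
    intro y hy
    rw [Finset.mem_image] at hy
    obtain ⟨v, hv, rfl⟩ := hy
    obtain ⟨g1, g2, g3, g4, g5, g6⟩ := hS v hv
    rw [Finset.mem_biUnion]
    refine ⟨⌊T v⌋, ?_, ?_⟩
    · rw [Finset.mem_Icc]
      exact ⟨Int.floor_le_floor g1, Int.floor_le_floor g2⟩
    · simp only [J, φ, Finset.mem_product, Finset.mem_singleton, Finset.mem_Icc, true_and]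
      have hei : (0 : ℝ) ≤ exp (⌊T v⌋ : ℤ) := (exp_pos _).le
      have hemi : (0 : ℝ) ≤ exp (-(⌊T v⌋ : ℤ)) := (exp_pos _).le
      refine ⟨⟨?_, ?_⟩, ⟨?_, ?_⟩⟩
      · exact Int.floor_le_floor (mul_le_mul_of_nonneg_right g3 hei)
      · exact Int.floor_le_floor (mul_le_mul_of_nonneg_right g4 hei)
      · exact Int.floor_le_floor (mul_le_mul_of_nonneg_right g5 hemi)
      · exact Int.floor_le_floor (mul_le_mul_of_nonneg_right g6 hemi)
  have hIcc : ∀ u w : ℝ, 0 ≤ w → ((Finset.Icc ⌊u⌋ ⌊u + w⌋).card : ℝ) ≤ w + 2 := by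
    intro u w hw
    have h3 : ⌊u⌋ ≤ ⌊u + w⌋ := Int.floor_le_floor (by linarith)
    rw [Int.card_Icc]
    have h4 : ((⌊u + w⌋ + 1 - ⌊u⌋).toNat : ℤ) = ⌊u + w⌋ + 1 - ⌊u⌋ := Int.toNat_of_nonneg (by omega)
    have h5 : (((⌊u + w⌋ + 1 - ⌊u⌋).toNat : ℤ) : ℝ) = (⌊u + w⌋ + 1 - ⌊u⌋ : ℝ) := by
      rw [h4]; push_cast; ring
    have h6 : (((⌊u + w⌋ + 1 - ⌊u⌋).toNat : ℕ) : ℝ) = (⌊u + w⌋ + 1 - ⌊u⌋ : ℝ) := by
      rw [← h5]; norm_cast
    rw [h6]
    have h7 := Int.floor_le (u + w)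
    have h8 := Int.lt_floor_add_one u
    linarith
  have h3 : ∀ i ∈ Finset.Icc ⌊t₁⌋ ⌊t₂⌋, ((J i).card : ℝ) ≤
      W * V + 2 * W * exp t₂ + 2 * V * exp (1 - t₁) + 4 := by
    intro i hi
    rw [Finset.mem_Icc] at hi
    simp only [J, Finset.card_product, Finset.card_singleton, one_mul]
    push_cast
    have hei : (0 : ℝ) < exp (i : ℤ) := exp_pos _
    have hemi : (0 : ℝ) < exp (-(i : ℤ)) := exp_pos _
    have hmul : exp ((i : ℤ) : ℝ) * exp (-((i : ℤ) : ℝ)) = 1 := by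
      rw [← exp_add]; simp
    have h4 := hIcc (a * exp (i : ℤ)) (W * exp (i : ℤ)) (by positivity)
    have h5 := hIcc (b * exp (-(i : ℤ))) (V * exp (-(i : ℤ))) (by positivity)
    rw [← add_mul] at h4 h5
    have h6 : exp ((i : ℤ) : ℝ) ≤ exp t₂ := by
      apply exp_le_exp.mpr
      have := Int.floor_le t₂
      have h7 : ((i : ℤ) : ℝ) ≤ ⌊t₂⌋ := by exact_mod_cast hi.2
      linarith
    have h7 : exp (-((i : ℤ) : ℝ)) ≤ exp (1 - t₁) := by
      apply exp_le_exp.mpr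
      have := Int.lt_floor_add_one t₁
      have h8 : (⌊t₁⌋ : ℝ) ≤ ((i : ℤ) : ℝ) := by exact_mod_cast hi.1
      linarith
    have h8 := mul_le_mul h4 h5 (by positivity) (by positivity)
    refine h8.trans ?_
    have h9 : (W * exp ((i : ℤ) : ℝ) + 2) * (V * exp (-((i : ℤ) : ℝ)) + 2) =
        W * V * (exp ((i : ℤ) : ℝ) * exp (-((i : ℤ) : ℝ))) + 2 * W * exp ((i : ℤ) : ℝ) +
          2 * V * exp (-((i : ℤ) : ℝ)) + 4 := by ring
    rw [h9, hmul]
    have h10 : 2 * W * exp ((i : ℤ) : ℝ) ≤ 2 * W * exp t₂ :=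
      mul_le_mul_of_nonneg_left h6 (by positivity)
    have h11 : 2 * V * exp (-((i : ℤ) : ℝ)) ≤ 2 * V * exp (1 - t₁) :=
      mul_le_mul_of_nonneg_left h7 (by positivity)
    linarith
  have h4 : ((S.image φ).card : ℝ) ≤
      (t₂ - t₁ + 2) * (W * V + 2 * W * exp t₂ + 2 * V * exp (1 - t₁) + 4) := by
    have h5 : ((S.image φ).card : ℝ) ≤ (((Finset.Icc ⌊t₁⌋ ⌊t₂⌋).biUnion J).card : ℝ) := by
      exact_mod_cast Finset.card_le_card h2
    have h6 : (((Finset.Icc ⌊t₁⌋ ⌊t₂⌋).biUnion J).card : ℝ) ≤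
        ∑ i ∈ Finset.Icc ⌊t₁⌋ ⌊t₂⌋, ((J i).card : ℝ) := by
      exact_mod_cast Finset.card_biUnion_le
    have h7 := Finset.sum_le_sum h3
    rw [Finset.sum_const, nsmul_eq_mul] at h7
    have h8 := hIcc t₁ (t₂ - t₁) (by linarith)
    have h9 : t₁ + (t₂ - t₁) = t₂ := by ring
    rw [h9] at h8
    refine h5.trans (h6.trans (h7.trans ?_))
    apply mul_le_mul_of_nonneg_right h8
    have := exp_pos t₂
    have := exp_pos (1 - t₁)
    positivity
  have h5 : (S.card : ℝ) ≤ ((5 ^ δ : ℕ) : ℝ) * ((S.image φ).card : ℝ) := by exact_mod_cast h1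
  refine h5.trans ?_
  exact mul_le_mul_of_nonneg_left h4 (by positivity)

namespace Dat

variable (D : Dat)

lemma cell_count : ∃ K : ℕ, 1 ≤ K ∧ ∀ (S : Finset (ℤ × ℤ)) (t₁ t₂ a W b V : ℝ), 0 ≤ W → 0 ≤ V →
    t₁ ≤ t₂ → (∀ v ∈ S, t₁ ≤ D.T v ∧ D.T v ≤ t₂ ∧ a ≤ D.X v ∧ D.X v ≤ a + W ∧ b ≤ D.Y v ∧
      D.Y v ≤ b + V) →
    (S.card : ℝ) ≤ K * ((t₂ - t₁ + 2) * (W * V + 2 * W * exp t₂ + 2 * V * exp (1 - t₁) + 4)) :=
  cell_count' D.X D.Y D.T D.A3

/-- The number of edges near the level `exp L` in a strip. -/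
lemma top_count : ∃ C5 : ℝ, 0 ≤ C5 ∧ ∀ m : ℝ, 0 ≤ m → ∃ C6 : ℝ, 0 ≤ C6 ∧ ∀ (L x₁ x₂ : ℝ)
    (S : Finset Edge), x₁ ≤ x₂ → (∀ e ∈ S, L - m ≤ D.T e.src ∧ exp (D.T e.src) ≤ D.lam * exp L ∧
      |D.Y e.src - D.Y D.p| ≤ D.lam * exp L ∧ x₁ ≤ mx D.X e ∧ mx D.X e ≤ x₂) →
    (S.card : ℝ) ≤ C5 * (m + 1) * ((x₂ - x₁) * exp L) + C6 := by
  classical
  obtain ⟨K, hK1, hK⟩ := D.cell_count
  have hl1 := D.lam1
  set ℓ := Real.log D.lam with hℓ
  have hℓ0 : 0 ≤ ℓ := Real.log_nonneg hl1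
  have hexpℓ : exp ℓ = D.lam := Real.exp_log (by linarith)
  have hc := D.c1
  refine ⟨2 * K * (4 * D.lam * (ℓ + 2)), by positivity, ?_⟩
  intro m hm
  refine ⟨2 * K * ((m + ℓ + 2) * (4 * D.lam * (D.c * exp m) + 4 * D.lam * exp (1 + m) + 4)),
    by positivity, ?_⟩
  intro L x₁ x₂ S hx hS
  -- pass to sources
  have hsrc : S.card ≤ (S.image Edge.src).card * 2 := by
    have h1 := Finset.card_le_mul_card_image (f := Edge.src) S 2 (by
      intro v _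
      have h2 : S.filter (fun e => e.src = v) ⊆ {Edge.h v.1 v.2, Edge.s v.1 v.2} := by
        intro e he
        rw [Finset.mem_filter] at he
        obtain ⟨_, he⟩ := he
        rw [Finset.mem_insert, Finset.mem_singleton]
        cases e with
        | h n k => left; rw [← he]; rfl
        | s n k => right; rw [← he]; rfl
      exact (Finset.card_le_card h2).trans Finset.card_le_two)
    linarith
  set w₀ := D.c * exp (m - L) with hw₀
  have hw₀pos : 0 ≤ w₀ := by positivity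
  have hbox : ∀ v ∈ S.image Edge.src, L - m ≤ D.T v ∧ D.T v ≤ L + ℓ ∧ x₁ - w₀ ≤ D.X v ∧
      D.X v ≤ (x₁ - w₀) + (x₂ - x₁ + w₀) ∧ D.Y D.p - D.lam * exp L ≤ D.Y v ∧
      D.Y v ≤ (D.Y D.p - D.lam * exp L) + 2 * D.lam * exp L := by
    intro v hv
    rw [Finset.mem_image] at hv
    obtain ⟨e, he, rfl⟩ := hv
    obtain ⟨h1, h2, h3, h4, h5⟩ := hS e he
    have h6 : D.T e.src ≤ L + ℓ := by
      rw [← hexpℓ, ← exp_add] at h2
      have := exp_le_exp.mp h2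
      linarith
    have h7 := D.A2X e e.tgt (Or.inl rfl)
    have h8 : D.c * exp (-D.T e.src) ≤ w₀ := by
      rw [hw₀]
      apply mul_le_mul_of_nonneg_left _ (by linarith)
      apply exp_le_exp.mpr
      linarith
    have h9 := abs_le.mp (h7.trans h8)
    have h10 := abs_le.mp h3
    refine ⟨h1, h6, ?_, ?_, by linarith, by linarith⟩
    · unfold mx at h4
      rcases le_max_iff.mp h4 with h | h <;> linarith
    · have : D.X e.src ≤ mx D.X e := le_max_left _ _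
      linarith
  have hmain := hK (S.image Edge.src) (L - m) (L + ℓ) (x₁ - w₀) (x₂ - x₁ + w₀)
    (D.Y D.p - D.lam * exp L) (2 * D.lam * exp L) (by linarith) (by positivity) (by linarith) hbox
  have h1 : (S.card : ℝ) ≤ 2 * ((S.image Edge.src).card : ℝ) := by
    have : (S.card : ℝ) ≤ ((S.image Edge.src).card : ℝ) * 2 := by exact_mod_cast hsrc
    linarith
  refine h1.trans ?_
  have h2 : exp (L + ℓ) = D.lam * exp L := by rw [exp_add, hexpℓ]; ring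
  have h3 : exp L * exp (1 - (L - m)) = exp (1 + m) := by
    rw [← exp_add]; congr 1; ring
  have h4 : w₀ * exp L = D.c * exp m := by
    rw [hw₀, mul_assoc, ← exp_add]; congr 2; ring
  have h5 : (x₂ - x₁ + w₀) * (2 * D.lam * exp L) + 2 * (x₂ - x₁ + w₀) * exp (L + ℓ) +
      2 * (2 * D.lam * exp L) * exp (1 - (L - m)) + 4 =
      4 * D.lam * ((x₂ - x₁) * exp L) + 4 * D.lam * (D.c * exp m) + 4 * D.lam * exp (1 + m) + 4 := by
    rw [h2]
    linear_combination (4 * D.lam) * h3 + (4 * D.lam) * h4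
  have h6 : L + ℓ - (L - m) + 2 = m + ℓ + 2 := by ring
  rw [h5, h6] at hmain
  have h7 : (m + ℓ + 2) ≤ (ℓ + 2) * (m + 1) := by nlinarith
  have h8 : (m + ℓ + 2) * (4 * D.lam * ((x₂ - x₁) * exp L)) ≤
      (ℓ + 2) * (m + 1) * (4 * D.lam * ((x₂ - x₁) * exp L)) := by
    apply mul_le_mul_of_nonneg_right h7
    have : 0 ≤ x₂ - x₁ := by linarith
    positivity
  have hKpos : (0 : ℝ) ≤ K := by positivity
  have h9 : (K : ℝ) * ((m + ℓ + 2) * (4 * D.lam * ((x₂ - x₁) * exp L))) ≤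
      K * ((ℓ + 2) * (m + 1) * (4 * D.lam * ((x₂ - x₁) * exp L))) :=
    mul_le_mul_of_nonneg_left h8 hKpos
  calc 2 * ((S.image Edge.src).card : ℝ)
      ≤ 2 * (K * ((m + ℓ + 2) * (4 * D.lam * ((x₂ - x₁) * exp L) + 4 * D.lam * (D.c * exp m) +
        4 * D.lam * exp (1 + m) + 4))) := by linarith
    _ = 2 * (K * ((m + ℓ + 2) * (4 * D.lam * ((x₂ - x₁) * exp L)))) +
        2 * K * ((m + ℓ + 2) * (4 * D.lam * (D.c * exp m) + 4 * D.lam * exp (1 + m) + 4)) := by ring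
    _ ≤ 2 * (K * ((ℓ + 2) * (m + 1) * (4 * D.lam * ((x₂ - x₁) * exp L)))) +
        2 * K * ((m + ℓ + 2) * (4 * D.lam * (D.c * exp m) + 4 * D.lam * exp (1 + m) + 4)) := by
          linarith
    _ = _ := by ring

/-- Good edges crossing the same slice are close to each other. -/
lemma slice_close : ∀ m : ℝ, 0 ≤ m → ∃ δ : ℕ, ∀ (L x : ℝ) (e e' : Edge),
    L - m ≤ D.T e.src → exp (D.T e.src) ≤ D.lam * exp L → |D.Y e.src - D.Y D.p| ≤ D.lam * exp L →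
    L - m ≤ D.T e'.src → exp (D.T e'.src) ≤ D.lam * exp L →
    |D.Y e'.src - D.Y D.p| ≤ D.lam * exp L →
    mn D.X e ≤ x → x ≤ mx D.X e → mn D.X e' ≤ x → x ≤ mx D.X e' → e'.src ∈ ball δ e.src := by
  intro m hm
  have hl1 := D.lam1
  set ℓ := Real.log D.lam with hℓ
  have hℓ0 : 0 ≤ ℓ := Real.log_nonneg hl1
  have hexpℓ : exp ℓ = D.lam := Real.exp_log (by linarith)
  have hc := D.c1
  obtain ⟨δ, hδ⟩ := D.A3 (m + ℓ + 2 * D.c + 2 * D.lam)
  refine ⟨δ, ?_⟩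
  intro L x e e' h1 h2 h3 h1' h2' h3' h4 h5 h4' h5'
  have key : ∀ e : Edge, L - m ≤ D.T e.src → exp (D.T e.src) ≤ D.lam * exp L →
      mn D.X e ≤ x → x ≤ mx D.X e → D.T e.src ≤ L + ℓ ∧ |D.X e.src - x| ≤ D.c * exp (m - L) := by
    intro e h1 h2 h4 h5
    constructor
    · rw [← hexpℓ, ← exp_add] at h2
      have := exp_le_exp.mp h2
      linarith
    · have h7 := D.A2X e e.tgt (Or.inl rfl)
      have h8 : D.c * exp (-D.T e.src) ≤ D.c * exp (m - L) := by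
        apply mul_le_mul_of_nonneg_left _ (by linarith)
        apply exp_le_exp.mpr
        linarith
      have h9 := abs_le.mp (h7.trans h8)
      have h10 : 0 ≤ D.c * exp (m - L) := by positivity
      unfold mn at h4
      unfold mx at h5
      rw [abs_le]
      rcases le_max_iff.mp h5 with h | h <;> rcases min_le_iff.mp h4 with h' | h' <;>
        constructor <;> linarith
  obtain ⟨k1, k2⟩ := key e h1 h2 h4 h5
  obtain ⟨k1', k2'⟩ := key e' h1' h2' h4' h5'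
  have hle : ∀ u : ℝ, u ≤ exp u := fun u => by linarith [add_one_le_exp u]
  apply hδ L
  · rw [abs_le]; constructor <;> linarith
  · rw [abs_le]; constructor <;> linarith
  · have h6 : |D.Y e.src - D.Y e'.src| ≤ 2 * D.lam * exp L := by
      have := abs_sub_le (D.Y e.src) (D.Y D.p) (D.Y e'.src)
      rw [abs_sub_comm (D.Y D.p)] at this
      linarith
    refine h6.trans ?_
    rw [exp_add, mul_comm (exp L)]
    apply mul_le_mul_of_nonneg_right _ (exp_pos L).le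
    refine (hle (2 * D.lam)).trans (exp_le_exp.mpr ?_)
    linarith
  · have h6 : |D.X e.src - D.X e'.src| ≤ 2 * D.c * exp (m - L) := by
      have := abs_sub_le (D.X e.src) x (D.X e'.src)
      rw [abs_sub_comm x] at this
      linarith
    refine h6.trans ?_
    have h7 : exp (m + ℓ + 2 * D.c + 2 * D.lam - L) = exp (ℓ + 2 * D.c + 2 * D.lam) * exp (m - L) := by
      rw [← exp_add]; congr 1; ring
    rw [h7]
    apply mul_le_mul_of_nonneg_right _ (exp_pos _).le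
    refine (hle (2 * D.c)).trans (exp_le_exp.mpr ?_)
    linarith

end Dat

end Pool.Agent.V8H67.Sol
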