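import Mathlib
import Pool.Agent.V8H67.Sol.Count

/-!
# The induction step
-/

set_option autoImplicit false

namespace Pool.Agent.V8H67.Sol

open Edge Finsupp Real

lemma edges_card {S : Finset Edge} {V : Finset (ℤ × ℤ)} (h : ∀ e ∈ S, e.src ∈ V) :
    S.card ≤ 2 * V.card := by
  classical
  have h1 := Finset.card_le_mul_card_image (f := Edge.src) S 2 (by
    intro v _
    have h2 : S.filter (fun e => e.src = v) ⊆ {Edge.h v.1 v.2, Edge.s v.1 v.2} := by
      intro e he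
      rw [Finset.mem_filter] at he
      obtain ⟨_, he⟩ := he
      rw [Finset.mem_insert, Finset.mem_singleton]
      cases e with
      | h n k => left; rw [← he]; rfl
      | s n k => right; rw [← he]; rfl
    exact (Finset.card_le_card h2).trans Finset.card_le_two)
  have h2 : S.image Edge.src ⊆ V := by
    intro v hv
    rw [Finset.mem_image] at hv
    obtain ⟨e, he, rfl⟩ := hv
    exact h e he
  have h3 := Finset.card_le_card h2
  omega

namespace Dat

variable (D : Dat)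

lemma sum_low {Sp : Finset Edge} {L C : ℝ} (hSp : ∑ e ∈ Sp, exp (L - D.T e.src) ≤ C)
    (S : Finset Edge) (hS : S ⊆ Sp) (hT : ∀ e ∈ S, D.T e.src ≤ L) : (S.card : ℝ) ≤ C := by
  refine le_trans ?_ hSp
  refine le_trans ?_ (Finset.sum_le_sum_of_subset_of_nonneg hS (fun _ _ _ => (exp_pos _).le))
  rw [Finset.card_eq_sum_ones]
  push_cast
  apply Finset.sum_le_sum
  intro e he
  exact one_le_exp (by linarith [hT e he])

lemma low_count {Ω : C2} {Sp : Finset Edge} {L C : ℝ} {ρ : ℕ}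
    (hbd : ∀ e ∈ (d2 Ω).support, e ∈ Sp ∨
      (D.Lam * exp L < D.G e.src ∧ D.Lam * exp L < D.G e.lf))
    (hSp : ∑ e ∈ Sp, exp (L - D.T e.src) ≤ C) (Low : Finset (ℤ × ℤ))
    (hLow : ∀ f ∈ Low, f ∈ Ω.support ∧ D.T f ≤ L - D.c * ρ ∧ D.G f ≤ D.lam * exp L) :
    (Low.card : ℝ) ≤ (Ω.support.card : ℝ) / 2 ^ ρ + (ρ + 1) * C := by
  classical
  have hC : 0 ≤ C := le_trans (Finset.sum_nonneg (fun _ _ => (exp_pos _).le)) hSp
  let P : ℤ × ℤ → Prop := fun f => ∀ i, i ≤ ρ → ∀ g, anc i g = f → D.T g ≤ L →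
    Edge.h g.1 g.2 ∉ Sp
  have hsplit : (Low.filter P).card + (Low.filter (fun f => ¬ P f)).card = Low.card :=
    Finset.card_filter_add_card_filter_not P
  have h1 : 2 ^ ρ * (Low.filter P).card ≤ Ω.support.card := by
    apply card_anc
    intro g hg
    rw [Finset.mem_filter] at hg
    obtain ⟨hg1, hg2⟩ := hg
    obtain ⟨k1, k2, k3⟩ := hLow _ hg1
    refine D.walk (Θ := D.Lam * exp L) (L := L) (B := D.lam * exp L) (ρ := ρ) hbd k1 (by linarith)
      ((D.Y_le_G _).trans k3) ?_ hg2 ρ (le_refl _) g rfl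
    unfold Lam
    apply le_of_eq
    ring
  have h2 : Low.filter (fun f => ¬ P f) ⊆
      ((Sp.filter (fun e => D.T e.src ≤ L)) ×ˢ (Finset.range (ρ + 1))).image
        (fun q : Edge × ℕ => anc q.2 q.1.src) := by
    intro f hf
    rw [Finset.mem_filter] at hf
    obtain ⟨hf1, hf2⟩ := hf
    simp only [P, not_forall, not_not] at hf2
    obtain ⟨i, hi, g, hg, hgT, hgS⟩ := hf2
    rw [Finset.mem_image]
    refine ⟨(Edge.h g.1 g.2, i), ?_, hg⟩
    rw [Finset.mem_product, Finset.mem_filter, Finset.mem_range]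
    exact ⟨⟨hgS, hgT⟩, by omega⟩
  have h3 : (Low.filter (fun f => ¬ P f)).card ≤ (Sp.filter (fun e => D.T e.src ≤ L)).card * (ρ + 1) := by
    refine (Finset.card_le_card h2).trans (Finset.card_image_le.trans ?_)
    rw [Finset.card_product, Finset.card_range]
  have h4 : ((Sp.filter (fun e => D.T e.src ≤ L)).card : ℝ) ≤ C :=
    D.sum_low hSp _ (Finset.filter_subset _ _) (fun e he => (Finset.mem_filter.mp he).2)
  have h5 : ((Low.filter P).card : ℝ) ≤ (Ω.support.card : ℝ) / 2 ^ ρ := by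
    rw [le_div_iff₀ (by positivity)]
    have : ((2 ^ ρ * (Low.filter P).card : ℕ) : ℝ) ≤ (Ω.support.card : ℝ) := by exact_mod_cast h1
    push_cast at this
    linarith
  have h6 : ((Low.filter (fun f => ¬ P f)).card : ℝ) ≤ (ρ + 1) * C := by
    have h7 : ((Low.filter (fun f => ¬ P f)).card : ℝ) ≤
        ((Sp.filter (fun e => D.T e.src ≤ L)).card : ℝ) * (ρ + 1) := by exact_mod_cast h3
    have h8 : ((Sp.filter (fun e => D.T e.src ≤ L)).card : ℝ) * (ρ + 1) ≤ C * (ρ + 1) :=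
      mul_le_mul_of_nonneg_right h4 (by positivity)
    linarith
  have h7 : (Low.card : ℝ) = ((Low.filter P).card : ℝ) + ((Low.filter (fun f => ¬ P f)).card : ℝ) := by
    exact_mod_cast hsplit.symm
  linarith

/-- The level edges of low height can be made few. -/
lemma level_choice (L : ℝ) (Low : Finset (ℤ × ℤ)) (E' : Finset Edge)
    (hE' : ∀ e ∈ E', e.src ∈ Low) :
    ∃ r, exp L / 2 ≤ r ∧ r ≤ exp L ∧
      (∑ e ∈ E', if min (D.G e.src) (D.G e.lf) ≤ r ∧ r < max (D.G e.src) (D.G e.lf) then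
        exp (L - D.T e.src) else 0) ≤ 4 * (D.c + D.E) * Low.card := by
  classical
  have hE := D.E1
  have hc := D.c1
  have hL := exp_pos L
  obtain ⟨r, hr1, hr2, hr3⟩ := exists_level E' (fun e => min (D.G e.src) (D.G e.lf))
    (fun e => max (D.G e.src) (D.G e.lf)) (fun e => exp (L - D.T e.src))
    (fun _ _ => min_le_max) (fun _ _ => (exp_pos _).le) (exp L / 2) (exp L) (by linarith)
  refine ⟨r, hr1, hr2, ?_⟩
  have h1 : ∀ e ∈ E', exp (L - D.T e.src) * (max (D.G e.src) (D.G e.lf) -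
      min (D.G e.src) (D.G e.lf)) ≤ (D.c + D.E) * exp L := by
    intro e _
    rw [max_sub_min_eq_abs]
    have h2 := D.G_diff (e := e) (w := e.lf) (Or.inr rfl)
    calc exp (L - D.T e.src) * |D.G e.lf - D.G e.src|
        ≤ exp (L - D.T e.src) * ((D.c + D.E) * exp (D.T e.src)) :=
          mul_le_mul_of_nonneg_left h2 (exp_pos _).le
      _ = (D.c + D.E) * (exp (L - D.T e.src) * exp (D.T e.src)) := by ring
      _ = (D.c + D.E) * exp L := by rw [← exp_add]; congr 2; ring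
  have h2 := Finset.sum_le_sum h1
  rw [Finset.sum_const, nsmul_eq_mul] at h2
  have h3 : (E'.card : ℝ) ≤ 2 * Low.card := by exact_mod_cast edges_card hE'
  have h4 := hr3.trans h2
  set W := ∑ e ∈ E', if min (D.G e.src) (D.G e.lf) ≤ r ∧ r < max (D.G e.src) (D.G e.lf) then
        exp (L - D.T e.src) else 0 with hW
  have h5 : (E'.card : ℝ) * ((D.c + D.E) * exp L) ≤ 2 * Low.card * ((D.c + D.E) * exp L) :=
    mul_le_mul_of_nonneg_right h3 (by positivity)
  have h6 : (exp L - exp L / 2) * W ≤ 2 * Low.card * ((D.c + D.E) * exp L) := h4.trans h5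
  have h7 : exp L * W ≤ exp L * (4 * (D.c + D.E) * Low.card) := by
    have : exp L * W = 2 * ((exp L - exp L / 2) * W) := by ring
    rw [this]
    calc 2 * ((exp L - exp L / 2) * W) ≤ 2 * (2 * Low.card * ((D.c + D.E) * exp L)) := by linarith
      _ = _ := by ring
  exact le_of_mul_le_mul_left h7 hL

/-- The state of the induction. -/
def State (s L C4 M : ℝ) : Prop :=
  ∃ (Ω : C2) (Sp : Finset Edge), Ω D.p = 1 ∧
    (∀ e ∈ (d2 Ω).support, e ∈ Sp ∨
      (D.Lam * exp (L - s) < D.G e.src ∧ D.Lam * exp (L - s) < D.G e.lf)) ∧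
    ∑ e ∈ Sp, exp (L - D.T e.src) ≤ C4 ∧ (Ω.support.card : ℝ) ≤ M

lemma adm_bound {z : C1} {bad : Finset Edge} {R : ℕ} {κ : C1} {L m : ℝ} (h : Adm z bad R κ)
    (hgood : ∀ e ∈ z.support, e ∉ bad → L - m ≤ D.T e.src) :
    (κ.support.card : ℝ) ≤ 2 * 5 ^ R ∧
      ∑ e ∈ κ.support, exp (L - D.T e.src) ≤ 2 * 5 ^ R * exp (m + D.c * R) := by
  rcases h with h | ⟨e₀, he₀, hb, hs⟩
  · subst h
    simp only [Finsupp.support_zero, Finset.card_empty, Nat.cast_zero, Finset.sum_empty]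
    constructor <;> positivity
  · have h1 : κ.support.card ≤ 2 * 5 ^ R := by
      have := edges_card hs
      have := ball_card R e₀.src
      omega
    have h1' : (κ.support.card : ℝ) ≤ 2 * 5 ^ R := by exact_mod_cast h1
    refine ⟨h1', ?_⟩
    have h2 := hgood e₀ he₀ hb
    have h3 : ∀ e ∈ κ.support, exp (L - D.T e.src) ≤ exp (m + D.c * R) := by
      intro e he
      apply exp_le_exp.mpr
      have := abs_le.mp (D.T_ball (hs e he))
      linarith
    have h4 := Finset.sum_le_sum h3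
    rw [Finset.sum_const, nsmul_eq_mul] at h4
    exact h4.trans (mul_le_mul_of_nonneg_right h1' (exp_pos _).le)

lemma exp_neg_le_half {s : ℝ} (hs : 1 ≤ s) : exp (-s) ≤ 1 / 2 := by
  have h3 : exp (-s) ≤ exp (-1) := exp_le_exp.mpr (by linarith)
  have h4 : exp (-1) * exp 1 = 1 := by rw [← exp_add]; simp
  have h5 := add_one_le_exp (1 : ℝ)
  have h6 := exp_pos (-1 : ℝ)
  nlinarith

lemma exp_le_half {a L : ℝ} (h : a + 1 ≤ L) : exp a ≤ exp L / 2 := by
  have h2 : exp (a + 1) ≤ exp L := exp_le_exp.mpr h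
  rw [exp_add] at h2
  have h3 := add_one_le_exp (1 : ℝ)
  have h4 := exp_pos a
  nlinarith

lemma exp_sub_half {lam Lam L s : ℝ} (h : 2 * lam * Lam < exp s) :
    lam * (Lam * exp (L - s)) < exp L / 2 := by
  have h8 : exp (L - s) * exp s = exp L := by rw [← exp_add]; congr 1; ring
  have h9 := exp_pos (L - s)
  rw [← h8]
  nlinarith

lemma exists_rho (a b : ℝ) (hb : 0 < b) : ∃ ρ : ℕ, a * (ρ + 1) / 2 ^ ρ ≤ b := by
  have h1 : Filter.Tendsto (fun n : ℕ => a * ((n : ℝ) ^ 1 / (2 : ℝ) ^ n) + a * ((n : ℝ) ^ 0 / (2 : ℝ) ^ n))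
      Filter.atTop (nhds (a * 0 + a * 0)) := by
    apply Filter.Tendsto.add
    · exact (tendsto_pow_const_div_const_pow_of_one_lt 1 (by norm_num)).const_mul a
    · exact (tendsto_pow_const_div_const_pow_of_one_lt 0 (by norm_num)).const_mul a
  have h2 : (a * 0 + a * 0 : ℝ) < b := by linarith
  obtain ⟨ρ, hρ⟩ := (h1.eventually (gt_mem_nhds h2)).exists
  refine ⟨ρ, ?_⟩
  have h3 : a * ((ρ : ℝ) + 1) / 2 ^ ρ = a * ((ρ : ℝ) ^ 1 / (2 : ℝ) ^ ρ) + a * ((ρ : ℝ) ^ 0 / (2 : ℝ) ^ ρ) := by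
    rw [pow_one, pow_zero]; ring
  rw [h3]
  exact hρ.le

theorem step (s : ℝ) (hs : 1 ≤ s) (hs2 : 2 * D.lam * D.Lam < exp s) :
    ∃ C4 C11 : ℝ, 0 ≤ C4 ∧ 0 ≤ C11 ∧ ∀ L M : ℝ, D.T D.p + 1 ≤ L → D.State s (L + s) C4 M →
      D.State s L C4 (exp (-2 * s) * M + C11) := by
  classical
  have hE := D.E1
  have hc := D.c1
  have hlam := D.lam1
  have hLam := D.Lam1
  obtain ⟨C5, hC5, htop⟩ := D.top_count
  -- choice of `ρ`
  obtain ⟨a₀, ha₀⟩ : ∃ q : ℝ, q = (C5 * D.c * D.c + C5 * D.c + 1) * (4 * (D.c + D.E)) := ⟨_, rfl⟩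
  have ha₀pos : 0 ≤ a₀ := by rw [ha₀]; positivity
  obtain ⟨ρ, hρ⟩ := exists_rho a₀ (exp (-2 * s)) (exp_pos _)
  obtain ⟨m, hm⟩ : ∃ q : ℝ, q = D.c * ρ := ⟨_, rfl⟩
  have hm0 : 0 ≤ m := by rw [hm]; positivity
  obtain ⟨C6, hC6, htop⟩ := htop m hm0
  obtain ⟨δ, hδ⟩ := D.slice_close m hm0
  obtain ⟨R, hR⟩ : ∃ q : ℕ, q = δ + 1 := ⟨_, rfl⟩
  obtain ⟨Kκ, hKκ⟩ : ∃ q : ℝ, q = 2 * 5 ^ R * exp (m + D.c * R) := ⟨_, rfl⟩
  have hKκpos : 0 ≤ Kκ := by rw [hKκ]; positivity
  obtain ⟨C4, hC4⟩ : ∃ q : ℝ, q = 4 * Kκ := ⟨_, rfl⟩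
  have hC4pos : 0 ≤ C4 := by rw [hC4]; positivity
  obtain ⟨b₀, hb₀⟩ : ∃ q : ℝ, q = C5 * (m + 1) * D.c + 1 := ⟨_, rfl⟩
  have hb₀pos : 0 ≤ b₀ := by rw [hb₀]; positivity
  obtain ⟨C11, hC11⟩ : ∃ q : ℝ, q = b₀ * (4 * (D.c + D.E) * ((ρ + 1) * C4)) +
    (C5 * (m + 1) * (D.c * C4 + 1) + C6 + D.E * C4 + 4 * 5 ^ R) := ⟨_, rfl⟩
  refine ⟨C4, C11, hC4pos, by rw [hC11]; positivity, ?_⟩
  intro L M hL hst
  obtain ⟨Ω, Sp, hΩp, hbd, hSp, hM⟩ := hst
  have hLs : L + s - s = L := by ring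
  rw [hLs] at hbd
  -- the weight of the special edges at the new scale
  have hSp' : ∑ e ∈ Sp, exp (L - D.T e.src) ≤ C4 / 2 := by
    have h1 : ∀ e ∈ Sp, exp (L - D.T e.src) = exp (-s) * exp (L + s - D.T e.src) := by
      intro e _
      rw [← exp_add]; congr 1; ring
    rw [Finset.sum_congr rfl h1, ← Finset.mul_sum]
    have h2 : exp (-s) ≤ 1 / 2 := exp_neg_le_half hs
    have h7 : 0 ≤ ∑ e ∈ Sp, exp (L + s - D.T e.src) :=
      Finset.sum_nonneg (fun _ _ => (exp_pos _).le)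
    have h8 := mul_le_mul h2 hSp h7 (by norm_num)
    linarith
  have hSp'' : ∑ e ∈ Sp, exp (L - D.T e.src) ≤ C4 := by linarith
  -- low faces
  obtain ⟨Low, hLow⟩ : ∃ q, q = Ω.support.filter (fun f => D.T f ≤ L - m ∧ D.G f ≤ D.lam * exp L) := ⟨_, rfl⟩
  have hlow := D.low_count (ρ := ρ) hbd hSp'' Low (by
    intro f hf
    rw [hLow, Finset.mem_filter] at hf
    rw [← hm]
    exact hf)
  obtain ⟨E', hE'⟩ : ∃ q, q = Low.image (fun f => Edge.h f.1 f.2) ∪ Low.image (fun f => Edge.s f.1 f.2) := ⟨_, rfl⟩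
  have hE'src : ∀ e ∈ E', e.src ∈ Low := by
    intro e he
    rw [hE', Finset.mem_union, Finset.mem_image, Finset.mem_image] at he
    rcases he with ⟨f, hf, rfl⟩ | ⟨f, hf, rfl⟩ <;> exact hf
  have hE'mem : ∀ e : Edge, e.src ∈ Low → e ∈ E' := by
    intro e he
    rw [hE', Finset.mem_union, Finset.mem_image, Finset.mem_image]
    cases e with
    | h n k => exact Or.inl ⟨(n, k), he, rfl⟩
    | s n k => exact Or.inr ⟨(n, k), he, rfl⟩
  obtain ⟨r, hr1, hr2, hW⟩ := D.level_choice L Low E' hE'src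
  rw [← Finset.sum_filter] at hW
  obtain ⟨cross, hcross⟩ : ∃ q : Edge → Prop, q = fun e => min (D.G e.src) (D.G e.lf) ≤ r ∧
    r < max (D.G e.src) (D.G e.lf) := ⟨_, rfl⟩
  have hcross' : ∀ e, cross e ↔ (min (D.G e.src) (D.G e.lf) ≤ r ∧
    r < max (D.G e.src) (D.G e.lf)) := by intro e; rw [hcross]
  obtain ⟨Ec, hEc⟩ : ∃ q : Finset Edge, q = E'.filter (fun e => min (D.G e.src) (D.G e.lf) ≤ r ∧
    r < max (D.G e.src) (D.G e.lf)) := ⟨_, rfl⟩
  rw [← hEc] at hW
  have hEcmem : ∀ e, e ∈ Ec ↔ e ∈ E' ∧ cross e := by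
    intro e
    rw [hEc, Finset.mem_filter, hcross']
  clear hEc hcross
  obtain ⟨W, hWdef⟩ : ∃ q : ℝ, q = ∑ e ∈ Ec, exp (L - D.T e.src) := ⟨_, rfl⟩
  rw [← hWdef] at hW
  have hWpos : 0 ≤ W := by
    rw [hWdef]
    exact Finset.sum_nonneg (fun _ _ => (exp_pos _).le)
  have hexpL := exp_pos L
  -- the truncated chain
  obtain ⟨A, hA1, hA2⟩ : ∃ A : C2, (∀ f, D.G f ≤ r → A f = Ω f) ∧ (∀ f, ¬ D.G f ≤ r → A f = 0) :=
    ⟨Ω.filter (fun f => D.G f ≤ r),
      fun f hf => Finsupp.filter_apply_pos (fun f => D.G f ≤ r) Ω hf,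
      fun f hf => Finsupp.filter_apply_neg (fun f => D.G f ≤ r) Ω hf⟩
  have hGp : D.G D.p ≤ r := by
    have h1 : D.G D.p = exp (D.T D.p) := by unfold G; simp
    rw [h1]
    refine le_trans ?_ hr1
    exact exp_le_half hL
  have hAp : A D.p = 1 := by rw [hA1 _ hGp, hΩp]
  -- classification of the boundary edges of `A`
  have hclass : ∀ e ∈ (d2 A).support, (D.G e.src ≤ r ∨ D.G e.lf ≤ r) ∧
      (e ∉ Sp → e.src ∈ Ω.support ∧ cross e) := by
    intro e he
    rw [Finsupp.mem_support_iff, d2_apply] at he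
    have h1 : D.G e.src ≤ r ∨ D.G e.lf ≤ r := by
      by_contra hcon
      push Not at hcon
      apply he
      rw [hA2 _ (not_le.mpr hcon.1), hA2 _ (not_le.mpr hcon.2), add_zero]
    refine ⟨h1, fun heSp => ?_⟩
    have h2 : Ω e.src + Ω e.lf = 0 := by
      by_contra hne
      have h3 : e ∈ (d2 Ω).support := by rwa [Finsupp.mem_support_iff, d2_apply]
      rcases hbd e h3 with h4 | h4
      · exact heSp h4
      · have h5 : exp L ≤ D.Lam * exp L := le_mul_of_one_le_left hexpL.le hLam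
        rcases h1 with h6 | h6
        · linarith [h4.1]
        · linarith [h4.2]
    have h3 : Ω e.src = Ω e.lf := by
      have h4 := add_self0 (Ω e.lf)
      have h5 : Ω e.src + Ω e.lf = Ω e.lf + Ω e.lf := by rw [h2, h4]
      exact add_right_cancel h5
    have h4 : Ω e.src ≠ 0 := by
      intro h5
      apply he
      have h6 : A e.src = 0 := by
        by_cases h : D.G e.src ≤ r
        · rw [hA1 _ h, h5]
        · exact hA2 _ h
      have h7 : A e.lf = 0 := by
        by_cases h : D.G e.lf ≤ r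
        · rw [hA1 _ h, ← h3, h5]
        · exact hA2 _ h
      rw [h6, h7, add_zero]
    refine ⟨Finsupp.mem_support_iff.mpr h4, ?_⟩
    rw [hcross']
    refine ⟨?_, ?_⟩
    · exact min_le_iff.mpr h1
    · by_contra hcon
      rw [not_lt] at hcon
      have h5 := (le_max_left _ _).trans hcon
      have h6 := (le_max_right _ _).trans hcon
      apply he
      rw [hA1 _ h5, hA1 _ h6, h2]
  have hGsrc : ∀ e ∈ (d2 A).support, D.G e.src ≤ D.lam * exp L := by
    intro e he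
    rcases (hclass e he).1 with h | h
    · exact (h.trans hr2).trans (le_mul_of_one_le_left hexpL.le hlam)
    · have h1 := (D.G_le (e := e) (w := e.lf) (Or.inr rfl)).2
      have h2 : D.lam * D.G e.lf ≤ D.lam * exp L :=
        mul_le_mul_of_nonneg_left (h.trans hr2) (by linarith)
      linarith
  have hTsrc : ∀ e ∈ (d2 A).support, D.T e.src ≤ L + D.c := by
    intro e he
    have h0 : ∀ w, D.G w ≤ r → D.T w ≤ L := by
      intro w hw
      have h1 := D.expT_le_G w
      exact exp_le_exp.mp (by linarith)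
    rcases (hclass e he).1 with h | h
    · linarith [h0 _ h]
    · have h1 := abs_le.mp (D.A2T e e.lf (Or.inr rfl))
      linarith [h0 _ h]
  -- bad edges
  obtain ⟨bad, hbad⟩ : ∃ q, q = (d2 A).support.filter (fun e => e ∈ Sp ∨ D.T e.src ≤ L - m) := ⟨_, rfl⟩
  have hbadsub : bad ⊆ (Ec) ∪ (Sp.filter (fun e => e ∈ (d2 A).support)) := by
    intro e he
    rw [hbad, Finset.mem_filter] at he
    obtain ⟨he1, he2⟩ := he
    rw [Finset.mem_union, hEcmem, Finset.mem_filter]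
    by_cases heS : e ∈ Sp
    · exact Or.inr ⟨heS, he1⟩
    · left
      obtain ⟨h1, h2⟩ := (hclass e he1).2 heS
      refine ⟨hE'mem e ?_, h2⟩
      rw [hLow, Finset.mem_filter]
      exact ⟨h1, he2.resolve_left heS, hGsrc e he1⟩
  have hbadsum : ∑ e ∈ bad, exp (L - D.T e.src) ≤ W + C4 / 2 := by
    refine (Finset.sum_le_sum_of_subset_of_nonneg hbadsub (fun _ _ _ => (exp_pos _).le)).trans ?_
    have h1 := Finset.sum_union_inter (s₁ := Ec)
      (s₂ := Sp.filter (fun e => e ∈ (d2 A).support)) (f := fun e => exp (L - D.T e.src))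
    have h2 : 0 ≤ ∑ e ∈ (Ec) ∩ (Sp.filter (fun e => e ∈ (d2 A).support)),
        exp (L - D.T e.src) := Finset.sum_nonneg (fun _ _ => (exp_pos _).le)
    have h3 : ∑ e ∈ Sp.filter (fun e => e ∈ (d2 A).support), exp (L - D.T e.src) ≤
        ∑ e ∈ Sp, exp (L - D.T e.src) :=
      Finset.sum_le_sum_of_subset_of_nonneg (Finset.filter_subset _ _)
        (fun _ _ _ => (exp_pos _).le)
    linarith
  have hbadcard : (bad.card : ℝ) ≤ W + D.E * C4 := by
    have h1 : (bad.card : ℝ) ≤ ((Ec).card : ℝ) +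
        ((Sp.filter (fun e => e ∈ (d2 A).support)).card : ℝ) := by
      exact_mod_cast (Finset.card_le_card hbadsub).trans (Finset.card_union_le _ _)
    have h2 : ((Ec).card : ℝ) ≤ W := by
      rw [hWdef, Finset.card_eq_sum_ones]
      push_cast
      apply Finset.sum_le_sum
      intro e he
      rw [hEcmem] at he
      have h3 := hE'src e he.1
      rw [hLow, Finset.mem_filter] at h3
      exact one_le_exp (by linarith [h3.2.1])
    have h3 : ((Sp.filter (fun e => e ∈ (d2 A).support)).card : ℝ) ≤ D.E * C4 := by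
      have h4 : ∀ e ∈ Sp.filter (fun e => e ∈ (d2 A).support),
          (1 : ℝ) ≤ D.E * exp (L - D.T e.src) := by
        intro e he
        rw [Finset.mem_filter] at he
        have h5 := hTsrc e he.2
        unfold E
        rw [← exp_add]
        exact one_le_exp (by linarith)
      have h5 := Finset.sum_le_sum h4
      rw [Finset.sum_const, nsmul_eq_mul, mul_one, ← Finset.mul_sum] at h5
      have h6 : ∑ e ∈ Sp.filter (fun e => e ∈ (d2 A).support), exp (L - D.T e.src) ≤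
          ∑ e ∈ Sp, exp (L - D.T e.src) :=
        Finset.sum_le_sum_of_subset_of_nonneg (Finset.filter_subset _ _)
          (fun _ _ _ => (exp_pos _).le)
      have h7 := mul_le_mul_of_nonneg_left (h6.trans hSp'') D.Epos.le
      linarith
    linarith
  have hgoodT : ∀ e ∈ (d2 A).support, e ∉ bad → L - m ≤ D.T e.src ∧ e ∉ Sp := by
    intro e he heb
    rw [hbad, Finset.mem_filter, not_and, not_or] at heb
    obtain ⟨h1, h2⟩ := heb he
    exact ⟨(not_le.mp h2).le, h1⟩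
  have hgoodG : ∀ e ∈ (d2 A).support, e ∉ bad → L - m ≤ D.T e.src ∧
      exp (D.T e.src) ≤ D.lam * exp L ∧ |D.Y e.src - D.Y D.p| ≤ D.lam * exp L := by
    intro e he heb
    exact ⟨(hgoodT e he heb).1, (D.expT_le_G _).trans (hGsrc e he),
      (D.Y_le_G _).trans (hGsrc e he)⟩
  -- fold
  obtain ⟨x₁, x₂, κ₁, κ₂, Ω', hx12, hxsum, hΩ'p, hκ₁, hκ₂, hΩ'⟩ :=
    fold D.X A D.p hAp δ bad (by
      intro x hfree e he e' he' h1 h2 h3 h4
      obtain ⟨g1, g2, g3⟩ := hgoodG e he (hfree e he h1 h2)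
      obtain ⟨g1', g2', g3'⟩ := hgoodG e' he' (hfree e' he' h3 h4)
      exact hδ L x e e' g1 g2 g3 g1' g2' g3' h1.le h2 h3.le h4) (exp (-L)) (exp_pos _)
  obtain ⟨hκ₁c, hκ₁s⟩ := D.adm_bound (L := L) (m := m) hκ₁ (fun e he heb => (hgoodT e he heb).1)
  obtain ⟨hκ₂c, hκ₂s⟩ := D.adm_bound (L := L) (m := m) hκ₂ (fun e he heb => (hgoodT e he heb).1)
  rw [← hR, ← hKκ] at hκ₁s hκ₂s
  rw [← hR] at hκ₁c hκ₂c
  -- the new state
  refine ⟨Ω', (Sp.filter (fun e => e ∈ (d2 A).support)) ∪ (κ₁.support ∪ κ₂.support), hΩ'p,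
    ?_, ?_, ?_⟩
  · intro e he
    rcases hΩ' e (Finsupp.mem_support_iff.mp he) with ⟨h1, _, _⟩ | h1 | h1
    · by_cases heS : e ∈ Sp
      · left
        exact Finset.mem_union_left _ (Finset.mem_filter.mpr ⟨heS, h1⟩)
      · right
        obtain ⟨_, h34⟩ := (hclass e h1).2 heS
        obtain ⟨_, h4⟩ := (hcross' e).mp h34
        have h5 := D.G_le (e := e) (w := e.lf) (Or.inr rfl)
        have h6 : r < D.lam * D.G e.src ∧ r < D.lam * D.G e.lf := by
          rcases lt_max_iff.mp h4 with h | h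
          · exact ⟨h.trans_le (le_mul_of_one_le_left (D.G_pos e.src).le hlam), h.trans_le h5.2⟩
          · exact ⟨h.trans_le h5.1, h.trans_le (le_mul_of_one_le_left (D.G_pos e.lf).le hlam)⟩
        have h7 : D.lam * (D.Lam * exp (L - s)) < r := by
          refine lt_of_lt_of_le ?_ hr1
          exact exp_sub_half hs2
        constructor
        · have := h7.trans h6.1
          exact lt_of_mul_lt_mul_left this (by linarith)
        · have := h7.trans h6.2
          exact lt_of_mul_lt_mul_left this (by linarith)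
    · left
      exact Finset.mem_union_right _ (Finset.mem_union_left _ h1)
    · left
      exact Finset.mem_union_right _ (Finset.mem_union_right _ h1)
  · -- weight
    have hun : ∀ S₁ S₂ : Finset Edge, ∑ e ∈ S₁ ∪ S₂, exp (L - D.T e.src) ≤
        ∑ e ∈ S₁, exp (L - D.T e.src) + ∑ e ∈ S₂, exp (L - D.T e.src) := by
      intro S₁ S₂
      have h1 := Finset.sum_union_inter (s₁ := S₁) (s₂ := S₂) (f := fun e => exp (L - D.T e.src))
      have h2 : 0 ≤ ∑ e ∈ S₁ ∩ S₂, exp (L - D.T e.src) :=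
        Finset.sum_nonneg (fun _ _ => (exp_pos _).le)
      linarith
    have h1 := hun (Sp.filter (fun e => e ∈ (d2 A).support)) (κ₁.support ∪ κ₂.support)
    have h2 := hun κ₁.support κ₂.support
    have h3 : ∑ e ∈ Sp.filter (fun e => e ∈ (d2 A).support), exp (L - D.T e.src) ≤
        ∑ e ∈ Sp, exp (L - D.T e.src) :=
      Finset.sum_le_sum_of_subset_of_nonneg (Finset.filter_subset _ _)
        (fun _ _ _ => (exp_pos _).le)
    linarith
  · -- size
    have hsub : (d2 Ω').support ⊆ ((d2 A).support.filter (fun e => e ∉ bad ∧ x₁ ≤ mx D.X e ∧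
        mx D.X e ≤ x₂)) ∪ (bad ∪ (κ₁.support ∪ κ₂.support)) := by
      intro e he
      rw [Finset.mem_union, Finset.mem_union, Finset.mem_union, Finset.mem_filter]
      rcases hΩ' e (Finsupp.mem_support_iff.mp he) with ⟨h1, h2, h3⟩ | h1 | h1
      · by_cases heb : e ∈ bad
        · exact Or.inr (Or.inl heb)
        · exact Or.inl ⟨h1, heb, h2, h3.le⟩
      · exact Or.inr (Or.inr (Or.inl h1))
      · exact Or.inr (Or.inr (Or.inr h1))
    have htopc := htop L x₁ x₂ ((d2 A).support.filter (fun e => e ∉ bad ∧ x₁ ≤ mx D.X e ∧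
        mx D.X e ≤ x₂)) hx12 (by
      intro e he
      rw [Finset.mem_filter] at he
      obtain ⟨he1, he2, he3, he4⟩ := he
      obtain ⟨g1, g2, g3⟩ := hgoodG e he1 he2
      exact ⟨g1, g2, g3, he3, he4⟩)
    have hxe : (x₂ - x₁) * exp L ≤ D.c * (W + C4 / 2) + 1 := by
      have h1 : ∑ e ∈ bad, (mx D.X e - mn D.X e) ≤ ∑ e ∈ bad, D.c * exp (-L) * exp (L - D.T e.src) := by
        apply Finset.sum_le_sum
        intro e _
        have h2 : mx D.X e - mn D.X e = |D.X e.tgt - D.X e.src| := by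
          unfold mx mn
          exact max_sub_min_eq_abs _ _
        rw [h2]
        refine (D.A2X e e.tgt (Or.inl rfl)).trans (le_of_eq ?_)
        rw [mul_assoc, ← exp_add]
        congr 2
        ring
      rw [← Finset.mul_sum] at h1
      have h3 : D.c * exp (-L) * ∑ e ∈ bad, exp (L - D.T e.src) ≤
          D.c * exp (-L) * (W + C4 / 2) := mul_le_mul_of_nonneg_left hbadsum (by positivity)
      have h4 : x₂ - x₁ ≤ D.c * exp (-L) * (W + C4 / 2) + exp (-L) := by linarith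
      have h5 : exp (-L) * exp L = 1 := by rw [← exp_add]; simp
      calc (x₂ - x₁) * exp L ≤ (D.c * exp (-L) * (W + C4 / 2) + exp (-L)) * exp L :=
            mul_le_mul_of_nonneg_right h4 hexpL.le
        _ = (D.c * (W + C4 / 2) + 1) * (exp (-L) * exp L) := by ring
        _ = _ := by rw [h5, mul_one]
    have h1 : (Ω'.support.card : ℝ) ≤ ((d2 Ω').support.card : ℝ) := by
      exact_mod_cast isoperimetric Ω'
    have h2 : ((d2 Ω').support.card : ℝ) ≤
        (((d2 A).support.filter (fun e => e ∉ bad ∧ x₁ ≤ mx D.X e ∧ mx D.X e ≤ x₂)).card : ℝ) +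
          ((bad.card : ℝ) + ((κ₁.support.card : ℝ) + (κ₂.support.card : ℝ))) := by
      have h3 := (Finset.card_le_card hsub).trans (Finset.card_union_le _ _)
      have h4 := Finset.card_union_le bad (κ₁.support ∪ κ₂.support)
      have h5 := Finset.card_union_le κ₁.support κ₂.support
      exact_mod_cast (by omega : (d2 Ω').support.card ≤
        ((d2 A).support.filter (fun e => e ∉ bad ∧ x₁ ≤ mx D.X e ∧ mx D.X e ≤ x₂)).card +
          (bad.card + (κ₁.support.card + κ₂.support.card)))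
    have h3 : C5 * (m + 1) * ((x₂ - x₁) * exp L) ≤ C5 * (m + 1) * (D.c * (W + C4 / 2) + 1) :=
      mul_le_mul_of_nonneg_left hxe (by positivity)
    have h4 : (Ω'.support.card : ℝ) ≤ b₀ * W + (C5 * (m + 1) * (D.c * C4 + 1) + C6 + D.E * C4 +
        4 * 5 ^ R) := by
      have h5 : C5 * (m + 1) * (D.c * (W + C4 / 2) + 1) ≤
          C5 * (m + 1) * D.c * W + C5 * (m + 1) * (D.c * C4 + 1) := by
        have h6 : 0 ≤ C5 * (m + 1) * D.c * (C4 / 2) := by positivity
        have h7 : C5 * (m + 1) * D.c * W + C5 * (m + 1) * (D.c * C4 + 1) =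
          C5 * (m + 1) * (D.c * (W + C4 / 2) + 1) + C5 * (m + 1) * D.c * (C4 / 2) := by ring
        rw [h7]
        linarith only [h6]
      rw [hb₀]
      linarith
    -- bound `W`
    have h5 : W ≤ 4 * (D.c + D.E) * ((Ω.support.card : ℝ) / 2 ^ ρ + (ρ + 1) * C4) :=
      hW.trans (mul_le_mul_of_nonneg_left hlow (by positivity))
    have h6 : b₀ * W ≤ b₀ * (4 * (D.c + D.E) * ((Ω.support.card : ℝ) / 2 ^ ρ + (ρ + 1) * C4)) :=
      mul_le_mul_of_nonneg_left h5 hb₀pos
    have h7 : b₀ * (4 * (D.c + D.E)) ≤ a₀ * (ρ + 1) := by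
      rw [ha₀, hb₀, hm]
      have h8 : C5 * (D.c * ρ + 1) * D.c + 1 ≤ (C5 * D.c * D.c + C5 * D.c + 1) * (ρ + 1) := by
        have h9 : 0 ≤ C5 * D.c * ρ := by positivity
        have h10 : 0 ≤ C5 * D.c * D.c := by positivity
        have h11 : (0 : ℝ) ≤ ρ := by positivity
        have h12 : (C5 * D.c * D.c + C5 * D.c + 1) * (ρ + 1) =
          (C5 * (D.c * ρ + 1) * D.c + 1) + C5 * D.c * ρ + C5 * D.c * D.c + ρ := by ring
        rw [h12]
        linarith only [h9, h10, h11]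
      have h9 := mul_le_mul_of_nonneg_right h8 (by positivity : (0 : ℝ) ≤ 4 * (D.c + D.E))
      linarith only [h9]
    have h8 : b₀ * (4 * (D.c + D.E)) * ((Ω.support.card : ℝ) / 2 ^ ρ) ≤ exp (-2 * s) * M := by
      have h9 : (0 : ℝ) ≤ (Ω.support.card : ℝ) := by positivity
      calc b₀ * (4 * (D.c + D.E)) * ((Ω.support.card : ℝ) / 2 ^ ρ)
          ≤ a₀ * (ρ + 1) * ((Ω.support.card : ℝ) / 2 ^ ρ) :=
            mul_le_mul_of_nonneg_right h7 (by positivity)
        _ = (a₀ * (ρ + 1) / 2 ^ ρ) * (Ω.support.card : ℝ) := by ring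
        _ ≤ exp (-2 * s) * (Ω.support.card : ℝ) := mul_le_mul_of_nonneg_right hρ h9
        _ ≤ exp (-2 * s) * M := mul_le_mul_of_nonneg_left hM (exp_pos _).le
    rw [hC11]
    have h9 : b₀ * (4 * (D.c + D.E) * ((Ω.support.card : ℝ) / 2 ^ ρ + (ρ + 1) * C4)) =
        b₀ * (4 * (D.c + D.E)) * ((Ω.support.card : ℝ) / 2 ^ ρ) +
          b₀ * (4 * (D.c + D.E) * ((ρ + 1) * C4)) := by ring
    rw [h9] at h6
    linarith

end Dat

end Pool.Agent.V8H67.Sol
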