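import Mathlib
import Pool.Agent.V8H67.Sol.Step

/-!
# The combinatorial theorem: there are no data
-/

set_option autoImplicit false

namespace Pool.Agent.V8H67.Sol

open Edge Finsupp Real

namespace Dat

variable (D : Dat)

/-- The initial state at a large scale. -/
lemma init (s : ℝ) (hs2 : 2 * D.lam * D.Lam < exp s) : ∃ C : ℝ, 0 ≤ C ∧ ∀ L C4 : ℝ, 0 ≤ L →
    D.T D.p ≤ L → 0 ≤ C4 → D.State s L C4 (C * (1 + L) ^ 2 * exp L) := by
  classical
  obtain ⟨C, hC⟩ := D.A4
  have hlam := D.lam1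
  have hLam := D.Lam1
  refine ⟨max C 0, le_max_right _ _, ?_⟩
  intro L C4 hL hTp hC4
  obtain ⟨S, hS1, hS2⟩ := hC L hL
  let F : ℤ × ℤ → ZMod 2 := fun v => if D.G v ≤ exp L then 1 else 0
  have hF : ∀ v, F v ≠ 0 → v ∈ S := by
    intro v hv
    simp only [F] at hv
    by_cases h : D.G v ≤ exp L
    · apply hS1 v
      · exact exp_le_exp.mp ((D.expT_le_G v).trans h)
      · exact (D.Y_le_G v).trans h
    · rw [if_neg h] at hv
      exact absurd rfl hv
  let Ω : C2 := Finsupp.onFinset S F hF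
  have hΩ : ∀ v, Ω v = if D.G v ≤ exp L then 1 else 0 := fun v => rfl
  refine ⟨Ω, ∅, ?_, ?_, ?_, ?_⟩
  · rw [hΩ, if_pos]
    have h1 : D.G D.p = exp (D.T D.p) := by unfold G; simp
    rw [h1]
    exact exp_le_exp.mpr hTp
  · intro e he
    right
    rw [Finsupp.mem_support_iff, d2_apply, hΩ, hΩ] at he
    have h5 := D.G_le (e := e) (w := e.lf) (Or.inr rfl)
    have h6 : exp L < D.lam * D.G e.src ∧ exp L < D.lam * D.G e.lf := by
      have h7 := D.G_pos e.src
      have h8 := D.G_pos e.lf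
      by_cases h1 : D.G e.src ≤ exp L
      · by_cases h2 : D.G e.lf ≤ exp L
        · rw [if_pos h1, if_pos h2] at he
          exact absurd (add_self0 1) he
        · rw [not_le] at h2
          exact ⟨by linarith [h5.1], by nlinarith⟩
      · rw [not_le] at h1
        exact ⟨by nlinarith, by linarith [h5.2]⟩
    have h7 : D.lam * (D.Lam * exp (L - s)) < exp L := by
      have h8 := exp_sub_half (L := L) hs2
      have h9 := exp_pos L
      linarith
    constructor
    · exact lt_of_mul_lt_mul_left (h7.trans h6.1) (by linarith)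
    · exact lt_of_mul_lt_mul_left (h7.trans h6.2) (by linarith)
  · simpa using hC4
  · have h1 : (Ω.support.card : ℝ) ≤ (S.card : ℝ) := by
      exact_mod_cast Finset.card_le_card (Finsupp.support_onFinset_subset)
    refine h1.trans (hS2.trans ?_)
    apply mul_le_mul_of_nonneg_right _ (exp_pos L).le
    exact mul_le_mul_of_nonneg_right (le_max_left _ _) (by positivity)

lemma State.mono {D : Dat} {s L C4 M M' : ℝ} (h : D.State s L C4 M) (hM : M ≤ M') :
    D.State s L C4 M' := by
  obtain ⟨Ω, Sp, h1, h2, h3, h4⟩ := h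
  exact ⟨Ω, Sp, h1, h2, h3, h4.trans hM⟩

/-- Iterating the step. -/
lemma iterate (s : ℝ) (hs : 1 ≤ s) {C4 C11 : ℝ} (hC11 : 0 ≤ C11)
    (hstep : ∀ L M : ℝ, D.T D.p + 1 ≤ L → D.State s (L + s) C4 M →
      D.State s L C4 (exp (-2 * s) * M + C11)) (L : ℝ) (hL : D.T D.p + 1 ≤ L) (k : ℕ) (M : ℝ)
    (h : D.State s (L + k * s) C4 M) : D.State s L C4 (exp (-2 * s * k) * M + 2 * C11) := by
  have hs' : exp (-2 * s) ≤ 1 / 2 := by
    have h3 : exp (-2 * s) ≤ exp (-1) := exp_le_exp.mpr (by linarith)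
    have h4 : exp (-1) * exp 1 = 1 := by rw [← exp_add]; simp
    have h5 := add_one_le_exp (1 : ℝ)
    have h6 := exp_pos (-1 : ℝ)
    nlinarith
  induction k generalizing L with
  | zero =>
    simp only [Nat.cast_zero, zero_mul, add_zero, mul_zero, exp_zero, one_mul] at h ⊢
    exact h.mono (by linarith)
  | succ k ih =>
    have h1 : L + ((k + 1 : ℕ) : ℝ) * s = (L + s) + k * s := by push_cast; ring
    rw [h1] at h
    have h3 := hstep L _ hL (ih (L + s) (by linarith) h)
    refine h3.mono ?_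
    have h4 : exp (-2 * s * ((k + 1 : ℕ) : ℝ)) = exp (-2 * s) * exp (-2 * s * k) := by
      rw [← exp_add]; congr 1; push_cast; ring
    rw [h4]
    have h5 : exp (-2 * s) * (2 * C11) ≤ 1 / 2 * (2 * C11) :=
      mul_le_mul_of_nonneg_right hs' (by linarith)
    linarith

end Dat

theorem no_dat (D : Dat) : False := by
  have hlam := D.lam1
  have hLam := D.Lam1
  have hc := D.c1
  obtain ⟨s, hs, hs2⟩ : ∃ s : ℝ, 1 ≤ s ∧ 2 * D.lam * D.Lam < exp s := by
    refine ⟨2 * D.lam * D.Lam, by nlinarith, ?_⟩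
    have := add_one_le_exp (2 * D.lam * D.Lam)
    linarith
  obtain ⟨C4, C11, hC4, hC11, hstep⟩ := D.step s hs hs2
  obtain ⟨C, hC, hinit⟩ := D.init s hs2
  have hT0 := D.T0 D.p
  have hstate : ∀ L : ℝ, D.T D.p + 1 ≤ L → D.State s L C4 (2 * C11 + 1) := by
    intro L hL
    have hL0 : 0 ≤ L := by linarith
    -- choose `k` large
    have h1 : Filter.Tendsto (fun k : ℕ => 1 + L + (k : ℝ) * s) Filter.atTop Filter.atTop := by
      apply Filter.tendsto_atTop_add_const_left
      exact Filter.Tendsto.atTop_mul_const (by linarith) tendsto_natCast_atTop_atTop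
    have h2 := (Real.tendsto_pow_mul_exp_neg_atTop_nhds_zero 2).comp h1
    have h3 := h2.const_mul (C * exp (2 * L + 1))
    rw [mul_zero] at h3
    obtain ⟨k, hk⟩ := (h3.eventually (gt_mem_nhds (zero_lt_one))).exists
    simp only [Function.comp] at hk
    have hk0 : (0 : ℝ) ≤ (k : ℝ) * s := by positivity
    have h4 := hinit (L + k * s) C4 (by linarith) (by linarith) hC4
    have h5 := D.iterate s hs hC11 hstep L hL k _ h4
    refine h5.mono ?_
    have h6 : exp (-2 * s * k) * (C * (1 + (L + k * s)) ^ 2 * exp (L + k * s)) =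
        C * exp (2 * L + 1) * ((1 + L + k * s) ^ 2 * exp (-(1 + L + k * s))) := by
      have h7 : exp (-2 * s * k) * exp (L + k * s) =
          exp (2 * L + 1) * exp (-(1 + L + k * s)) := by
        rw [← exp_add, ← exp_add]; congr 1; ring
      linear_combination (C * (1 + L + k * s) ^ 2) * h7
    rw [h6]
    linarith
  obtain ⟨i, hi⟩ := pow_unbounded_of_one_lt (2 * C11 + 1) (by norm_num : (1 : ℝ) < 2)
  obtain ⟨Ω, Sp, hΩp, hbd, hSp, hM⟩ := hstate (D.T D.p + D.c * i + s + C4 + 1) (by
    have : (0 : ℝ) ≤ D.c * i := by positivity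
    linarith)
  have hΩp' : D.p ∈ Ω.support := by
    rw [Finsupp.mem_support_iff, hΩp]
    exact one_ne_zero
  have hwalk := D.walk (L := D.T D.p + D.c * i) (B := 0) (f := D.p) (ρ := i) hbd hΩp' (le_refl _)
    (by simp) (by
      have h1 : exp (D.T D.p + D.c * i) ≤ exp (D.T D.p + D.c * i + s + C4 + 1 - s) :=
        exp_le_exp.mpr (by linarith)
      have h2 := exp_pos (D.T D.p + D.c * i)
      have h3 : 2 * (D.c : ℝ) + 1 ≤ D.Lam := by unfold Dat.Lam; linarith
      calc 0 + 2 * D.c * exp (D.T D.p + D.c * i) + exp (D.T D.p + D.c * i)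
          = (2 * D.c + 1) * exp (D.T D.p + D.c * i) := by ring
        _ ≤ D.Lam * exp (D.T D.p + D.c * i + s + C4 + 1 - s) :=
          mul_le_mul h3 h1 h2.le (by linarith)) (by
      intro j _ g _ hg hgS
      have h1 : exp (D.T D.p + D.c * i + s + C4 + 1 - D.T (Edge.h g.1 g.2).src) ≤
          ∑ e ∈ Sp, exp (D.T D.p + D.c * i + s + C4 + 1 - D.T e.src) :=
        Finset.single_le_sum (f := fun e : Edge => exp (D.T D.p + D.c * i + s + C4 + 1 - D.T e.src))
          (fun _ _ => (exp_pos _).le) hgS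
      have h2 : (Edge.h g.1 g.2).src = g := rfl
      rw [h2] at h1
      have h3 := add_one_le_exp (D.T D.p + D.c * i + s + C4 + 1 - D.T g)
      linarith) i (le_refl _)
  have hcard := card_anc i {D.p} Ω.support (by
    intro g hg
    rw [Finset.mem_singleton] at hg
    exact hwalk g hg)
  rw [Finset.card_singleton, mul_one] at hcard
  have h1 : (2 : ℝ) ^ i ≤ (Ω.support.card : ℝ) := by exact_mod_cast hcard
  linarith

end Pool.Agent.V8H67.Sol
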