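import Mathlib
import Pool.Agent.V8H67.Sol.Fill

/-!
# The binary tiling in the hyperbolic plane
-/

set_option autoImplicit false

namespace Pool.Agent.V8H67.Sol

open Edge Real

/-- The vertex `(n, k)` is the point `k 2 ^ (-n) + i 2 ^ (-n)` of the hyperbolic plane. -/
noncomputable def vtx (v : ℤ × ℤ) : UpperHalfPlane :=
  ⟨⟨(v.2 : ℝ) * (2 : ℝ) ^ (-v.1), (2 : ℝ) ^ (-v.1)⟩, by positivity⟩

lemma vtx_re (v : ℤ × ℤ) : (vtx v).re = (v.2 : ℝ) * (2 : ℝ) ^ (-v.1) := rfl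
lemma vtx_im (v : ℤ × ℤ) : (vtx v).im = (2 : ℝ) ^ (-v.1) := rfl

lemma cosh_one : (3 : ℝ) / 2 ≤ cosh 1 := by
  rw [cosh_eq]
  have h1 := exp_one_gt_d9
  have h2 := exp_one_lt_d9
  have h3 : exp (-1) * exp 1 = 1 := by rw [← exp_add]; simp
  have h4 := exp_pos (-1 : ℝ)
  have h5 : (0.3 : ℝ) ≤ exp (-1) := by
    by_contra hcon
    rw [not_le] at hcon
    nlinarith
  linarith

lemma dist_le_one {z w : UpperHalfPlane}
    (h : (z.re - w.re) ^ 2 + z.im ^ 2 + w.im ^ 2 ≤ 3 * (z.im * w.im)) : dist z w ≤ 1 := by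
  have h1 := UpperHalfPlane.cosh_dist' z w
  have hz := z.im_pos
  have hw := w.im_pos
  have h2 : cosh (dist z w) ≤ cosh 1 := by
    rw [h1]
    refine le_trans ?_ cosh_one
    rw [div_le_iff₀ (by positivity)]
    linarith
  have h3 := cosh_le_cosh.mp h2
  rw [abs_of_nonneg dist_nonneg, abs_one] at h3
  exact h3

lemma pow_add_one (n : ℤ) : (2 : ℝ) ^ (-(n + 1)) = (2 : ℝ) ^ (-n) / 2 := by
  rw [neg_add, zpow_add₀ (by norm_num)]
  norm_num
  ring

lemma pow_sub_one (n : ℤ) : (2 : ℝ) ^ (-(n - 1)) = 2 * (2 : ℝ) ^ (-n) := by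
  have : -(n - 1) = -n + 1 := by ring
  rw [this, zpow_add₀ (by norm_num)]
  norm_num
  ring

lemma near (e : Edge) (w : ℤ × ℤ) (hw : w = e.tgt ∨ w = e.lf) :
    dist (vtx e.src) (vtx w) ≤ 1 := by
  apply dist_le_one
  rw [vtx_re, vtx_re, vtx_im, vtx_im]
  cases e with
  | h n k =>
    have ha : (0 : ℝ) < (2 : ℝ) ^ (-n) := by positivity
    rcases hw with hw | hw
    · rw [hw]
      simp only [src, tgt]
      generalize (2 : ℝ) ^ (-n) = a at *
      push_cast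
      nlinarith
    · rw [hw]
      simp only [src, lf]
      rw [pow_sub_one]
      generalize (2 : ℝ) ^ (-n) = a at *
      have h1 : (k : ℝ) = 2 * ((k / 2 : ℤ) : ℝ) + ((k % 2 : ℤ) : ℝ) := by
        have := Int.mul_ediv_add_emod k 2
        exact_mod_cast this.symm
      have h2 : (k : ℝ) * a - ((k / 2 : ℤ) : ℝ) * (2 * a) = ((k % 2 : ℤ) : ℝ) * a := by
        linear_combination a * h1
      rw [h2]
      have h3 : ((k % 2 : ℤ) : ℝ) ^ 2 ≤ 1 := by
        rcases Int.emod_two_eq_zero_or_one k with h | h <;> rw [h] <;> norm_num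
      rw [mul_pow]
      nlinarith [sq_nonneg a]
  | s n k =>
    have ha : (0 : ℝ) < (2 : ℝ) ^ (-n) := by positivity
    rcases hw with hw | hw
    · rw [hw]
      simp only [src, tgt]
      rw [pow_add_one]
      generalize (2 : ℝ) ^ (-n) = a at *
      push_cast
      nlinarith
    · rw [hw]
      simp only [src, lf]
      generalize (2 : ℝ) ^ (-n) = a at *
      push_cast
      nlinarith

lemma parent_mem (g : ℤ × ℤ) : (g.1 - 1, g.2 / 2) ∈ ball 2 g := by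
  obtain ⟨n, k⟩ := g
  by_cases hk : k % 2 = 0
  · apply ball_succ_mono
    refine ball_step (mem_ball_self 0 _) ?_
    simp [nbrs, hk]
  · have h1 : (n, k - 1) ∈ ball 1 (n, k) := by
      refine ball_step (mem_ball_self 0 _) ?_
      simp [nbrs]
    refine ball_step h1 ?_
    have h2 : (k - 1) % 2 = 0 := by omega
    have h3 : (k - 1) / 2 = k / 2 := by omega
    simp [nbrs, h2, h3]

lemma up_mem (i : ℕ) (g : ℤ × ℤ) : (g.1 - i, g.2 / 2 ^ i) ∈ ball (2 * i) g := by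
  induction i with
  | zero => simp [ball]
  | succ i ih =>
    have h1 := ball_trans ih (parent_mem _)
    simp only at h1
    have h2 : g.1 - (i : ℤ) - 1 = g.1 - ((i + 1 : ℕ) : ℤ) := by push_cast; ring
    have h3 : g.2 / 2 ^ i / 2 = g.2 / 2 ^ (i + 1) := by
      rw [pow_succ, Int.ediv_ediv_of_nonneg (by positivity)]
    rw [h2, h3] at h1
    have h4 : 2 * (i + 1) = 2 * i + 2 := by ring
    rw [h4]
    exact h1

lemma level_mem (n a b : ℤ) (h1 : a ≤ b + 1) (h2 : b ≤ a + 1) : (n, b) ∈ ball 1 (n, a) := by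
  have h3 : b = a ∨ b = a - 1 ∨ b = a + 1 := by omega
  rcases h3 with h | h | h
  · rw [h]; exact mem_ball_self _ _
  · refine ball_step (mem_ball_self 0 _) ?_
    simp [nbrs, h]
  · refine ball_step (mem_ball_self 0 _) ?_
    simp [nbrs, h]

/-- Vertices at bounded distance can be joined by a short path in the tiling. -/
theorem far (u v : ℤ × ℤ) (D : ℝ) (N : ℕ) (hD : dist (vtx u) (vtx v) ≤ D) (hN : 12 * D + 9 ≤ N) :
    v ∈ ball N u := by
  obtain ⟨n, k⟩ := u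
  obtain ⟨n', k'⟩ := v
  have hD0 : 0 ≤ D := dist_nonneg.trans hD
  have hlog := Real.log_two_gt_d9
  -- the difference of levels
  have hlev : |(n : ℝ) - n'| ≤ 2 * D := by
    have h1 := (UpperHalfPlane.dist_log_im_le (vtx (n, k)) (vtx (n', k'))).trans hD
    rw [vtx_im, vtx_im, Real.dist_eq, Real.log_zpow, Real.log_zpow] at h1
    push_cast at h1
    have h2 : -(n : ℝ) * Real.log 2 - -(n' : ℝ) * Real.log 2 = -(((n : ℝ) - n') * Real.log 2) := by ring
    rw [h2, abs_neg, abs_mul, abs_of_pos (by linarith : 0 < Real.log 2)] at h1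
    have h3 := abs_nonneg ((n : ℝ) - n')
    nlinarith
  obtain ⟨j, hj⟩ : ∃ j : ℕ, j = ⌈D⌉₊ + 1 := ⟨_, rfl⟩
  have hjD : D + 1 ≤ j := by
    rw [hj]; push_cast
    linarith [Nat.le_ceil D]
  have hjD2 : (j : ℝ) ≤ D + 2 := by
    rw [hj]; push_cast
    linarith [Nat.ceil_lt_add_one hD0]
  have h4j : 2 * exp D ≤ (4 : ℝ) ^ j := by
    have h1 : (4 : ℝ) ^ j = exp (j * Real.log 4) := by
      rw [mul_comm, Real.exp_mul, Real.exp_log (by norm_num), Real.rpow_natCast]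
    have h2 : Real.log 4 = 2 * Real.log 2 := by
      have : (4 : ℝ) = 2 ^ 2 := by norm_num
      rw [this, Real.log_pow]; norm_num
    have h3 : (2 : ℝ) = exp (Real.log 2) := (Real.exp_log (by norm_num)).symm
    have h4 : 2 * exp D = exp (Real.log 2 + D) := by rw [exp_add, ← h3]
    rw [h4, h1, h2]
    apply exp_le_exp.mpr
    nlinarith
  -- the common level
  obtain ⟨i, hi⟩ : ∃ i : ℕ, n - i = min n n' - j := ⟨(n - min n n' + j).toNat, by omega⟩
  obtain ⟨i', hi'⟩ : ∃ i' : ℕ, n' - i' = min n n' - j := ⟨(n' - min n n' + j).toNat, by omega⟩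
  have hcosh := UpperHalfPlane.cosh_dist' (vtx (n, k)) (vtx (n', k'))
  have hcosh2 : cosh (dist (vtx (n, k)) (vtx (n', k'))) ≤ exp D := by
    have h1 : cosh (dist (vtx (n, k)) (vtx (n', k'))) ≤ cosh D := by
      rw [cosh_le_cosh, abs_of_nonneg dist_nonneg, abs_of_nonneg hD0]
      exact hD
    have h2 : cosh D ≤ exp D := by
      rw [cosh_eq]
      have : exp (-D) ≤ exp D := exp_le_exp.mpr (by linarith)
      linarith
    exact h1.trans h2
  rw [hcosh] at hcosh2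
  rw [div_le_iff₀ (by have := (vtx (n, k)).im_pos; have := (vtx (n', k')).im_pos; positivity)] at hcosh2
  rw [vtx_re, vtx_re, vtx_im, vtx_im] at hcosh2
  simp only at hcosh2
  -- compare at the common level
  have h2i : (0 : ℝ) < 2 ^ i := by positivity
  have h2i' : (0 : ℝ) < 2 ^ i' := by positivity
  have hk : (k : ℝ) * (2 : ℝ) ^ (-n) = (k : ℝ) / 2 ^ i * (2 : ℝ) ^ (-(min n n' - j)) := by
    rw [← hi]
    have : (2 : ℝ) ^ (-(n - (i : ℤ))) = (2 : ℝ) ^ (-n) * 2 ^ i := by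
      have h1 : -(n - (i : ℤ)) = -n + i := by ring
      rw [h1, zpow_add₀ (by norm_num), zpow_natCast]
    rw [this]
    field_simp
  have hk' : (k' : ℝ) * (2 : ℝ) ^ (-n') = (k' : ℝ) / 2 ^ i' * (2 : ℝ) ^ (-(min n n' - j)) := by
    rw [← hi']
    have : (2 : ℝ) ^ (-(n' - (i' : ℤ))) = (2 : ℝ) ^ (-n') * 2 ^ i' := by
      have h1 : -(n' - (i' : ℤ)) = -n' + i' := by ring
      rw [h1, zpow_add₀ (by norm_num), zpow_natCast]
    rw [this]
    field_simp
  rw [hk, hk'] at hcosh2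
  obtain ⟨A, hA⟩ : ∃ A : ℝ, A = (2 : ℝ) ^ (-(min n n')) := ⟨_, rfl⟩
  have hApos : 0 < A := by rw [hA]; positivity
  have hAj : (2 : ℝ) ^ (-(min n n' - j)) = A * 2 ^ j := by
    have h1 : -(min n n' - (j : ℤ)) = -(min n n') + j := by ring
    rw [h1, zpow_add₀ (by norm_num), zpow_natCast, hA]
  have hn : (2 : ℝ) ^ (-n) ≤ A := by
    rw [hA]
    exact zpow_le_zpow_right₀ (by norm_num) (by omega)
  have hn' : (2 : ℝ) ^ (-n') ≤ A := by
    rw [hA]
    exact zpow_le_zpow_right₀ (by norm_num) (by omega)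
  rw [hAj, ← sub_mul] at hcosh2
  obtain ⟨q, hq⟩ : ∃ q : ℝ, q = (k : ℝ) / 2 ^ i - (k' : ℝ) / 2 ^ i' := ⟨_, rfl⟩
  rw [← hq] at hcosh2
  have hq1 : |q| ≤ 1 := by
    rw [← sq_le_one_iff_abs_le_one]
    have hp1 : (0 : ℝ) < (2 : ℝ) ^ (-n) := by positivity
    have hp2 : (0 : ℝ) < (2 : ℝ) ^ (-n') := by positivity
    have h1 : (q * (A * 2 ^ j)) ^ 2 ≤ exp D * (2 * A * A) := by
      have h2 : exp D * (2 * (2 : ℝ) ^ (-n) * (2 : ℝ) ^ (-n')) ≤ exp D * (2 * A * A) := by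
        apply mul_le_mul_of_nonneg_left _ (exp_pos D).le
        apply mul_le_mul _ hn' hp2.le (by positivity)
        exact mul_le_mul_of_nonneg_left hn (by norm_num)
      have h3 : 0 ≤ ((2 : ℝ) ^ (-n)) ^ 2 := by positivity
      have h4 : 0 ≤ ((2 : ℝ) ^ (-n')) ^ 2 := by positivity
      linarith
    have h2 : (q * (A * 2 ^ j)) ^ 2 = q ^ 2 * ((A * A) * 4 ^ j) := by
      have : (4 : ℝ) ^ j = (2 ^ j) ^ 2 := by
        rw [← pow_mul, mul_comm j 2, pow_mul]; norm_num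
      rw [this]; ring
    rw [h2] at h1
    have h3 : exp D * (2 * A * A) ≤ (A * A) * 4 ^ j := by
      have h4 := mul_le_mul_of_nonneg_left h4j (by positivity : 0 ≤ A * A)
      linarith
    have h4 : 0 < (A * A) * (4 : ℝ) ^ j := by positivity
    have h5 : q ^ 2 * ((A * A) * 4 ^ j) ≤ 1 * ((A * A) * 4 ^ j) := by linarith
    exact le_of_mul_le_mul_right h5 h4
  -- floors
  have hfl : ∀ (m : ℤ) (l : ℕ), ((m / 2 ^ l : ℤ) : ℝ) ≤ (m : ℝ) / 2 ^ l ∧
      (m : ℝ) / 2 ^ l < ((m / 2 ^ l : ℤ) : ℝ) + 1 := by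
    intro m l
    have hp : (0 : ℤ) < 2 ^ l := by positivity
    have h1 := Int.ediv_mul_le m hp.ne'
    have h2 := Int.lt_ediv_add_one_mul_self m hp
    have h1' : ((m / 2 ^ l : ℤ) : ℝ) * 2 ^ l ≤ (m : ℝ) := by exact_mod_cast h1
    have h2' : (m : ℝ) < (((m / 2 ^ l : ℤ) : ℝ) + 1) * 2 ^ l := by exact_mod_cast h2
    have hp' : (0 : ℝ) < 2 ^ l := by positivity
    constructor
    · rwa [le_div_iff₀ hp']
    · rwa [div_lt_iff₀ hp']
  obtain ⟨f1, f2⟩ := hfl k i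
  obtain ⟨g1, g2⟩ := hfl k' i'
  have hab := abs_le.mp hq1
  rw [hq] at hab
  have hle1 : k / 2 ^ i ≤ k' / 2 ^ i' + 1 := by
    have : ((k / 2 ^ i : ℤ) : ℝ) < ((k' / 2 ^ i' : ℤ) : ℝ) + 2 := by linarith
    have h2 : (k / 2 ^ i : ℤ) < (k' / 2 ^ i' : ℤ) + 2 := by exact_mod_cast this
    omega
  have hle2 : k' / 2 ^ i' ≤ k / 2 ^ i + 1 := by
    have : ((k' / 2 ^ i' : ℤ) : ℝ) < ((k / 2 ^ i : ℤ) : ℝ) + 2 := by linarith
    have h2 : (k' / 2 ^ i' : ℤ) < (k / 2 ^ i : ℤ) + 2 := by exact_mod_cast this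
    omega
  have m1 := up_mem i (n, k)
  have m2 := up_mem i' (n', k')
  simp only at m1 m2
  rw [hi] at m1
  rw [hi'] at m2
  have m3 := level_mem (min n n' - j) _ _ hle1 hle2
  have m4 := ball_trans (ball_trans m1 m3) (ball_symm m2)
  refine ball_mono ?_ _ m4
  -- the size of the radius
  have hi1 : (i : ℝ) ≤ 3 * D + 2 := by
    have h1 : (i : ℤ) = n - min n n' + j := by omega
    have h2 : (i : ℝ) = n - ((min n n' : ℤ) : ℝ) + j := by exact_mod_cast h1
    have h3 : (n : ℝ) - ((min n n' : ℤ) : ℝ) ≤ |(n : ℝ) - n'| := by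
      rcases min_cases n n' with ⟨h, _⟩ | ⟨h, _⟩
      · rw [h]; simp
      · rw [h]; exact le_abs_self _
    linarith
  have hi2 : (i' : ℝ) ≤ 3 * D + 2 := by
    have h1 : (i' : ℤ) = n' - min n n' + j := by omega
    have h2 : (i' : ℝ) = n' - ((min n n' : ℤ) : ℝ) + j := by exact_mod_cast h1
    have h3 : (n' : ℝ) - ((min n n' : ℤ) : ℝ) ≤ |(n : ℝ) - n'| := by
      rcases min_cases n n' with ⟨h, _⟩ | ⟨h, _⟩
      · rw [h]; rw [abs_sub_comm]; exact le_abs_self _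
      · rw [h]; simp
    linarith
  have : ((2 * i + 1 + 2 * i' : ℕ) : ℝ) ≤ (N : ℝ) := by
    push_cast
    linarith
  exact_mod_cast this

end Pool.Agent.V8H67.Sol
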