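import Mathlib

/-!
# The geometry Sol

`Sol` is `ℝ³` with coordinates `(x, y, t)` and the Riemannian metric
`e^{2t} dx² + e^{-2t} dy² + dt²`. Its distance is the infimum of the lengths of the piecewise `C¹`
paths.
-/

set_option autoImplicit false

namespace Pool.Agent.V8H67.Sol

open Real

/-- The speed of the curve `u ↦ (x u, y u, t u)` for the metric `e^{2t} dx² + e^{-2t} dy² + dt²`. -/
noncomputable def speed (x y t : ℝ → ℝ) (u : ℝ) : ℝ :=
  Real.sqrt (Real.exp (2 * t u) * deriv x u ^ 2 + Real.exp (-(2 * t u)) * deriv y u ^ 2 +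
    deriv t u ^ 2)

/-- The length of the curve `u ↦ (x u, y u, t u)`, `0 ≤ u ≤ 1`. -/
noncomputable def len (x y t : ℝ → ℝ) : ℝ := ∫ u in (0 : ℝ)..1, speed x y t u

/-- `PathLen p q ℓ`: there is a piecewise `C¹` path from `p` to `q` of length `ℓ`. -/
inductive PathLen : ℝ × ℝ × ℝ → ℝ × ℝ × ℝ → ℝ → Prop
  | nil (p : ℝ × ℝ × ℝ) : PathLen p p 0
  | cons {x y t : ℝ → ℝ} {q : ℝ × ℝ × ℝ} {ℓ : ℝ} (hx : ContDiff ℝ 1 x) (hy : ContDiff ℝ 1 y)
      (ht : ContDiff ℝ 1 t) (h : PathLen (x 1, y 1, t 1) q ℓ) :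
      PathLen (x 0, y 0, t 0) q (len x y t + ℓ)

/-- The distance of `Sol`. -/
noncomputable def dSol (p q : ℝ × ℝ × ℝ) : ℝ := sInf {ℓ | PathLen p q ℓ}

lemma speed_nonneg (x y t : ℝ → ℝ) (u : ℝ) : 0 ≤ speed x y t u := Real.sqrt_nonneg _

lemma len_nonneg (x y t : ℝ → ℝ) : 0 ≤ len x y t :=
  intervalIntegral.integral_nonneg zero_le_one (fun u _ => speed_nonneg x y t u)

lemma PathLen.nonneg {p q : ℝ × ℝ × ℝ} {ℓ : ℝ} (h : PathLen p q ℓ) : 0 ≤ ℓ := by
  induction h with
  | nil p => exact le_refl _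
  | cons hx hy ht _ ih => exact add_nonneg (len_nonneg _ _ _) ih

lemma PathLen.trans {p q r : ℝ × ℝ × ℝ} {ℓ ℓ' : ℝ} (h : PathLen p q ℓ) (h' : PathLen q r ℓ') :
    PathLen p r (ℓ + ℓ') := by
  induction h with
  | nil p => rwa [zero_add]
  | cons hx hy ht _ ih =>
    rw [add_assoc]
    exact PathLen.cons hx hy ht (ih h')

lemma speed_cont {x y t : ℝ → ℝ} (hx : ContDiff ℝ 1 x) (hy : ContDiff ℝ 1 y)
    (ht : ContDiff ℝ 1 t) : Continuous (speed x y t) := by
  have h1 := hx.continuous_deriv (le_refl _)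
  have h2 := hy.continuous_deriv (le_refl _)
  have h3 := ht.continuous_deriv (le_refl _)
  have h4 := ht.continuous
  unfold speed
  fun_prop

lemma deriv_t_le (x y t : ℝ → ℝ) (u : ℝ) : |deriv t u| ≤ speed x y t u := by
  unfold speed
  rw [← Real.sqrt_sq_eq_abs]
  apply Real.sqrt_le_sqrt
  have := exp_pos (2 * t u)
  have := exp_pos (-(2 * t u))
  have h1 : 0 ≤ Real.exp (2 * t u) * deriv x u ^ 2 := by positivity
  have h2 : 0 ≤ Real.exp (-(2 * t u)) * deriv y u ^ 2 := by positivity
  linarith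

lemma deriv_x_le (x y t : ℝ → ℝ) (u : ℝ) : exp (t u) * |deriv x u| ≤ speed x y t u := by
  unfold speed
  apply Real.le_sqrt_of_sq_le
  rw [mul_pow, sq_abs]
  have h0 : exp (t u) ^ 2 = exp (2 * t u) := by rw [← exp_nat_mul]; norm_num
  rw [h0]
  have h2 : 0 ≤ Real.exp (-(2 * t u)) * deriv y u ^ 2 := by positivity
  have h3 : 0 ≤ deriv t u ^ 2 := sq_nonneg _
  linarith

lemma deriv_y_le (x y t : ℝ → ℝ) (u : ℝ) : exp (-(t u)) * |deriv y u| ≤ speed x y t u := by
  unfold speed
  apply Real.le_sqrt_of_sq_le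
  rw [mul_pow, sq_abs]
  have h0 : exp (-(t u)) ^ 2 = exp (-(2 * t u)) := by rw [← exp_nat_mul]; congr 1; push_cast; ring
  rw [h0]
  have h2 : 0 ≤ Real.exp (2 * t u) * deriv x u ^ 2 := by positivity
  have h3 : 0 ≤ deriv t u ^ 2 := sq_nonneg _
  linarith

lemma t_le_len {x y t : ℝ → ℝ} (hx : ContDiff ℝ 1 x) (hy : ContDiff ℝ 1 y)
    (ht : ContDiff ℝ 1 t) {u : ℝ} (hu0 : 0 ≤ u) (hu1 : u ≤ 1) : |t u - t 0| ≤ len x y t := by
  have hsc := speed_cont hx hy ht
  have hdt := ht.continuous_deriv (le_refl _)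
  have h1 : t u - t 0 = ∫ v in (0 : ℝ)..u, deriv t v := by
    rw [intervalIntegral.integral_deriv_eq_sub]
    · intro v _
      exact (ht.differentiable (by norm_num)).differentiableAt
    · exact hdt.intervalIntegrable _ _
  rw [h1]
  calc |∫ v in (0 : ℝ)..u, deriv t v| ≤ ∫ v in (0 : ℝ)..u, |deriv t v| :=
        intervalIntegral.abs_integral_le_integral_abs hu0
    _ ≤ ∫ v in (0 : ℝ)..u, speed x y t v := by
        apply intervalIntegral.integral_mono_on hu0 (hdt.abs.intervalIntegrable _ _)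
          (hsc.intervalIntegrable _ _)
        intro v _
        exact deriv_t_le x y t v
    _ ≤ ∫ v in (0 : ℝ)..1, speed x y t v := by
        apply intervalIntegral.integral_mono_interval (le_refl _) hu0 hu1
        · exact Filter.Eventually.of_forall (fun v => speed_nonneg x y t v)
        · exact hsc.intervalIntegrable _ _

lemma x_le_len {x y t : ℝ → ℝ} (hx : ContDiff ℝ 1 x) (hy : ContDiff ℝ 1 y)
    (ht : ContDiff ℝ 1 t) : |x 1 - x 0| ≤ len x y t * exp (len x y t - t 0) := by
  have hsc := speed_cont hx hy ht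
  have hdx := hx.continuous_deriv (le_refl _)
  have h1 : x 1 - x 0 = ∫ v in (0 : ℝ)..1, deriv x v := by
    rw [intervalIntegral.integral_deriv_eq_sub]
    · intro v _
      exact (hx.differentiable (by norm_num)).differentiableAt
    · exact hdx.intervalIntegrable _ _
  rw [h1]
  calc |∫ v in (0 : ℝ)..1, deriv x v| ≤ ∫ v in (0 : ℝ)..1, |deriv x v| :=
        intervalIntegral.abs_integral_le_integral_abs zero_le_one
    _ ≤ ∫ v in (0 : ℝ)..1, speed x y t v * exp (len x y t - t 0) := by
        apply intervalIntegral.integral_mono_on zero_le_one (hdx.abs.intervalIntegrable _ _)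
          ((hsc.mul continuous_const).intervalIntegrable _ _)
        intro v hv
        have h2 := deriv_x_le x y t v
        have h3 := abs_le.mp (t_le_len hx hy ht hv.1 hv.2)
        have h4 : |deriv x v| = (exp (t v) * |deriv x v|) * exp (-(t v)) := by
          rw [mul_comm (exp (t v)), mul_assoc, ← exp_add]; simp
        rw [h4]
        apply mul_le_mul h2 _ (exp_pos _).le (speed_nonneg _ _ _ _)
        exact exp_le_exp.mpr (by linarith)
    _ = len x y t * exp (len x y t - t 0) := by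
        rw [intervalIntegral.integral_mul_const]; rfl

lemma y_le_len {x y t : ℝ → ℝ} (hx : ContDiff ℝ 1 x) (hy : ContDiff ℝ 1 y)
    (ht : ContDiff ℝ 1 t) : |y 1 - y 0| ≤ len x y t * exp (len x y t + t 0) := by
  have hsc := speed_cont hx hy ht
  have hdy := hy.continuous_deriv (le_refl _)
  have h1 : y 1 - y 0 = ∫ v in (0 : ℝ)..1, deriv y v := by
    rw [intervalIntegral.integral_deriv_eq_sub]
    · intro v _
      exact (hy.differentiable (by norm_num)).differentiableAt
    · exact hdy.intervalIntegrable _ _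
  rw [h1]
  calc |∫ v in (0 : ℝ)..1, deriv y v| ≤ ∫ v in (0 : ℝ)..1, |deriv y v| :=
        intervalIntegral.abs_integral_le_integral_abs zero_le_one
    _ ≤ ∫ v in (0 : ℝ)..1, speed x y t v * exp (len x y t + t 0) := by
        apply intervalIntegral.integral_mono_on zero_le_one (hdy.abs.intervalIntegrable _ _)
          ((hsc.mul continuous_const).intervalIntegrable _ _)
        intro v hv
        have h2 := deriv_y_le x y t v
        have h3 := abs_le.mp (t_le_len hx hy ht hv.1 hv.2)
        have h4 : |deriv y v| = (exp (-(t v)) * |deriv y v|) * exp (t v) := by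
          rw [mul_comm (exp (-(t v))), mul_assoc, ← exp_add]; simp
        rw [h4]
        apply mul_le_mul h2 _ (exp_pos _).le (speed_nonneg _ _ _ _)
        exact exp_le_exp.mpr (by linarith)
    _ = len x y t * exp (len x y t + t 0) := by
        rw [intervalIntegral.integral_mul_const]; rfl

/-- How far a path of given length can go. -/
lemma PathLen.bounds {p q : ℝ × ℝ × ℝ} {ℓ : ℝ} (h : PathLen p q ℓ) :
    |q.2.2 - p.2.2| ≤ ℓ ∧ |q.1 - p.1| ≤ ℓ * exp (ℓ - p.2.2) ∧
      |q.2.1 - p.2.1| ≤ ℓ * exp (ℓ + p.2.2) := by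
  induction h with
  | nil p => simp
  | @cons x y t q ℓ hx hy ht h ih =>
    obtain ⟨h1, h2, h3⟩ := ih
    simp only at h1 h2 h3 ⊢
    have hl := len_nonneg x y t
    have hℓ := h.nonneg
    have g1 := abs_le.mp (t_le_len hx hy ht (zero_le_one) (le_refl (1 : ℝ)))
    have g2 := x_le_len hx hy ht
    have g3 := y_le_len hx hy ht
    have k1 := abs_le.mp h1
    refine ⟨?_, ?_, ?_⟩
    · rw [abs_le]; constructor <;> linarith
    · have e1 : exp (len x y t - t 0) ≤ exp (len x y t + ℓ - t 0) := exp_le_exp.mpr (by linarith)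
      have e2 : exp (ℓ - t 1) ≤ exp (len x y t + ℓ - t 0) := exp_le_exp.mpr (by linarith)
      have m1 := mul_le_mul_of_nonneg_left e1 hl
      have m2 := mul_le_mul_of_nonneg_left e2 hℓ
      have m3 := abs_sub_le q.1 (x 1) (x 0)
      rw [add_mul]
      linarith
    · have e1 : exp (len x y t + t 0) ≤ exp (len x y t + ℓ + t 0) := exp_le_exp.mpr (by linarith)
      have e2 : exp (ℓ + t 1) ≤ exp (len x y t + ℓ + t 0) := exp_le_exp.mpr (by linarith)
      have m1 := mul_le_mul_of_nonneg_left e1 hl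
      have m2 := mul_le_mul_of_nonneg_left e2 hℓ
      have m3 := abs_sub_le q.2.1 (y 1) (y 0)
      rw [add_mul]
      linarith

/-! ### Explicit paths -/

lemma path_t (a b : ℝ) (t t' : ℝ) : PathLen (a, b, t) (a, b, t') |t' - t| := by
  have h := PathLen.cons (x := fun _ => a) (y := fun _ => b) (t := fun u => t + u * (t' - t))
    (q := (a, b, t')) (ℓ := 0) contDiff_const contDiff_const (by fun_prop)
    (by
      have h1 : t + 1 * (t' - t) = t' := by ring
      simp only [h1]
      exact PathLen.nil _)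
  have h2 : len (fun _ => a) (fun _ => b) (fun u => t + u * (t' - t)) = |t' - t| := by
    unfold len
    have h3 : ∀ u : ℝ, speed (fun _ => a) (fun _ => b) (fun u => t + u * (t' - t)) u = |t' - t| := by
      intro u
      have h4 : deriv (fun u : ℝ => t + u * (t' - t)) u = t' - t := by
        have : HasDerivAt (fun u : ℝ => t + u * (t' - t)) (1 * (t' - t)) u :=
          ((hasDerivAt_id u).mul_const (t' - t)).const_add t
        rw [this.deriv, one_mul]
      unfold speed
      rw [h4]
      simp [Real.sqrt_sq_eq_abs]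
    simp only [h3]
    simp
  rw [h2, add_zero] at h
  have h5 : t + 0 * (t' - t) = t := by ring
  simp only [h5] at h
  exact h

lemma path_x (a a' b t : ℝ) : PathLen (a, b, t) (a', b, t) (exp t * |a' - a|) := by
  have h := PathLen.cons (x := fun u => a + u * (a' - a)) (y := fun _ => b) (t := fun _ => t)
    (q := (a', b, t)) (ℓ := 0) (by fun_prop) contDiff_const contDiff_const
    (by
      have h1 : a + 1 * (a' - a) = a' := by ring
      simp only [h1]
      exact PathLen.nil _)
  have h2 : len (fun u => a + u * (a' - a)) (fun _ => b) (fun _ => t) = exp t * |a' - a| := by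
    unfold len
    have h3 : ∀ u : ℝ, speed (fun u => a + u * (a' - a)) (fun _ => b) (fun _ => t) u =
        exp t * |a' - a| := by
      intro u
      have h4 : deriv (fun u : ℝ => a + u * (a' - a)) u = a' - a := by
        have : HasDerivAt (fun u : ℝ => a + u * (a' - a)) (1 * (a' - a)) u :=
          ((hasDerivAt_id u).mul_const (a' - a)).const_add a
        rw [this.deriv, one_mul]
      unfold speed
      rw [h4]
      have h5 : exp (2 * t) = exp t ^ 2 := by rw [← exp_nat_mul]; norm_num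
      simp only [deriv_const', ne_eq, OfNat.ofNat_ne_zero, not_false_eq_true, zero_pow, mul_zero,
        add_zero]
      rw [h5, ← mul_pow, Real.sqrt_sq_eq_abs, abs_mul, abs_of_pos (exp_pos t)]
    simp only [h3]
    simp
  rw [h2, add_zero] at h
  have h5 : a + 0 * (a' - a) = a := by ring
  simp only [h5] at h
  exact h

lemma path_y (a b b' t : ℝ) : PathLen (a, b, t) (a, b', t) (exp (-t) * |b' - b|) := by
  have h := PathLen.cons (x := fun _ => a) (y := fun u => b + u * (b' - b)) (t := fun _ => t)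
    (q := (a, b', t)) (ℓ := 0) contDiff_const (by fun_prop) contDiff_const
    (by
      have h1 : b + 1 * (b' - b) = b' := by ring
      simp only [h1]
      exact PathLen.nil _)
  have h2 : len (fun _ => a) (fun u => b + u * (b' - b)) (fun _ => t) = exp (-t) * |b' - b| := by
    unfold len
    have h3 : ∀ u : ℝ, speed (fun _ => a) (fun u => b + u * (b' - b)) (fun _ => t) u =
        exp (-t) * |b' - b| := by
      intro u
      have h4 : deriv (fun u : ℝ => b + u * (b' - b)) u = b' - b := by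
        have : HasDerivAt (fun u : ℝ => b + u * (b' - b)) (1 * (b' - b)) u :=
          ((hasDerivAt_id u).mul_const (b' - b)).const_add b
        rw [this.deriv, one_mul]
      unfold speed
      rw [h4]
      have h5 : exp (-(2 * t)) = exp (-t) ^ 2 := by rw [← exp_nat_mul]; congr 1; push_cast; ring
      simp only [deriv_const', ne_eq, OfNat.ofNat_ne_zero, not_false_eq_true, zero_pow, mul_zero,
        add_zero, zero_add]
      rw [h5, ← mul_pow, Real.sqrt_sq_eq_abs, abs_mul, abs_of_pos (exp_pos (-t))]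
    simp only [h3]
    simp
  rw [h2, add_zero] at h
  have h5 : b + 0 * (b' - b) = b := by ring
  simp only [h5] at h
  exact h

/-- A path through the heights `H₁` (for the `y`-direction) and `H₂` (for the `x`-direction). -/
lemma path_two (p q : ℝ × ℝ × ℝ) (H₁ H₂ : ℝ) :
    PathLen p q (|H₁ - p.2.2| + exp (-H₁) * |q.2.1 - p.2.1| + |H₂ - H₁| +
      exp H₂ * |q.1 - p.1| + |q.2.2 - H₂|) := by
  obtain ⟨a, b, t⟩ := p
  obtain ⟨a', b', t'⟩ := q
  exact ((((path_t a b t H₁).trans (path_y a b b' H₁)).trans (path_t a b' H₁ H₂)).trans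
    (path_x a a' b' H₂)).trans (path_t a' b' H₂ t')

lemma dSol_le {p q : ℝ × ℝ × ℝ} {ℓ : ℝ} (h : PathLen p q ℓ) : dSol p q ≤ ℓ :=
  csInf_le ⟨0, fun _ h => h.nonneg⟩ h

lemma exists_path_lt {p q : ℝ × ℝ × ℝ} {r : ℝ} (h : dSol p q < r) : ∃ ℓ < r, PathLen p q ℓ := by
  obtain ⟨ℓ, h1, h2⟩ := exists_lt_of_csInf_lt ⟨_, path_two p q 0 0⟩ h
  exact ⟨ℓ, h2, h1⟩

/-- Coordinates of points at bounded distance. -/
lemma dSol_bounds {p q : ℝ × ℝ × ℝ} {r : ℝ} (h : dSol p q < r) :
    |q.2.2 - p.2.2| ≤ r ∧ |q.1 - p.1| ≤ r * exp r * exp (-p.2.2) ∧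
      |q.2.1 - p.2.1| ≤ r * exp r * exp (p.2.2) := by
  obtain ⟨ℓ, hℓ, hp⟩ := exists_path_lt h
  obtain ⟨h1, h2, h3⟩ := hp.bounds
  have h0 := hp.nonneg
  have e : exp ℓ ≤ exp r := exp_le_exp.mpr hℓ.le
  have m : ℓ * exp ℓ ≤ r * exp r := mul_le_mul hℓ.le e (exp_pos _).le (by linarith)
  refine ⟨h1.trans hℓ.le, ?_, ?_⟩
  · rw [sub_eq_add_neg ℓ, exp_add, ← mul_assoc] at h2
    exact h2.trans (mul_le_mul_of_nonneg_right m (exp_pos _).le)
  · rw [exp_add, ← mul_assoc] at h3
    exact h3.trans (mul_le_mul_of_nonneg_right m (exp_pos _).le)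

end Pool.Agent.V8H67.Sol
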