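import Mathlib
import Pool.Agent.V8H67.Sol.Comb
import Pool.Agent.V8H67.Sol.SolDist
import Pool.Agent.V8H67.Sol.Plane

/-!
# A quasi-isometric embedding into the upper half of Sol gives the combinatorial data
-/

set_option autoImplicit false

namespace Pool.Agent.V8H67.Sol

open Edge Finsupp Real

section

variable (f : UpperHalfPlane → ℝ × ℝ × ℝ) (K C : ℝ)

lemma x_ball {X T : ℤ × ℤ → ℝ} {c : ℝ} (hc : 0 ≤ c) (T0 : ∀ v, 0 ≤ T v)
    (A2X : ∀ e : Edge, ∀ w, w = e.tgt ∨ w = e.lf → |X w - X e.src| ≤ c * exp (-T e.src))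
    {N : ℕ} {v w : ℤ × ℤ} (hw : w ∈ ball N v) : |X w - X v| ≤ c * N := by
  induction N generalizing w with
  | zero =>
    simp only [ball, Finset.mem_singleton] at hw
    subst hw
    simp
  | succ N ih =>
    rw [ball, Finset.mem_biUnion] at hw
    obtain ⟨w', hw', h⟩ := hw
    rw [Finset.mem_insert] at h
    have h1 := ih hw'
    rcases h with h | h
    · subst h
      push_cast
      nlinarith
    · have h2 : |X w - X w'| ≤ c := by
        obtain ⟨e, he⟩ := nbrs_edge h
        have h5 : c * exp (-T e.src) ≤ c * 1 := by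
          apply mul_le_mul_of_nonneg_left _ hc
          exact exp_le_one_iff.mpr (by linarith [T0 e.src])
        rcases he with ⟨h3, h4⟩ | ⟨h3, h4⟩
        · have := A2X e w (Or.inl h4.symm)
          rw [h3] at this h5
          linarith
        · have := A2X e w' (Or.inl h4.symm)
          rw [h3] at this h5
          rw [abs_sub_comm]
          linarith
      have h3 := abs_sub_le (X w) (X w') (X v)
      push_cast
      linarith

lemma log_le_mul {w θ : ℝ} (hw : 0 < w) (hθ : 0 < θ) : Real.log w ≤ θ * w - 1 - Real.log θ := by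
  have h1 := Real.log_le_sub_one_of_pos (mul_pos hθ hw)
  rw [Real.log_mul hθ.ne' hw.ne'] at h1
  linarith

/-- The distance of a vertex in a large box from the base point is at most linear in the scale. -/
lemma lin_bound {K C c Tp : ℝ} (hK : 1 ≤ K) (hc : 1 ≤ c) :
    ∃ A : ℝ, 0 ≤ A ∧ ∀ L d : ℝ, 0 ≤ L → 0 ≤ d →
      d ≤ K * (3 * L + Tp + 2 + C + 2 * Real.log (1 + c * (12 * d + 10))) → d ≤ A * (1 + L) := by
  obtain ⟨θ, hθ⟩ : ∃ θ : ℝ, θ = 1 / (48 * K * c) := ⟨_, rfl⟩
  have hθpos : 0 < θ := by rw [hθ]; positivity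
  obtain ⟨B₀, hB₀⟩ : ∃ B₀ : ℝ, B₀ = K * (Tp + 2 + C) +
    2 * K * (θ * (1 + 10 * c) - 1 - Real.log θ) := ⟨_, rfl⟩
  refine ⟨6 * K + 2 * |B₀|, by positivity, ?_⟩
  intro L d hL hd h
  have hw : 0 < 1 + c * (12 * d + 10) := by positivity
  have h1 := log_le_mul hw hθpos
  have h2 : K * (2 * Real.log (1 + c * (12 * d + 10))) ≤
      K * (2 * (θ * (1 + c * (12 * d + 10)) - 1 - Real.log θ)) := by
    apply mul_le_mul_of_nonneg_left _ (by linarith)
    linarith
  have h3 : 48 * K * c * θ = 1 := by rw [hθ]; field_simp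
  have h4 : K * (2 * (θ * (1 + c * (12 * d + 10)) - 1 - Real.log θ)) =
      d / 2 + 2 * K * (θ * (1 + 10 * c) - 1 - Real.log θ) := by
    linear_combination (d / 2) * h3
  have h5 : d / 2 ≤ 3 * K * L + B₀ := by
    rw [hB₀]
    linarith
  have h6 := le_abs_self B₀
  have h7 := abs_nonneg B₀
  nlinarith

theorem exists_dat (hK : 1 ≤ K) (hC : 0 ≤ C)
    (hf1 : ∀ p q, dist p q / K - C ≤ dSol (f p) (f q))
    (hf2 : ∀ p q, dSol (f p) (f q) ≤ K * dist p q + C) (hpos : ∀ p, 0 ≤ (f p).2.2) :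
    Nonempty Dat := by
  classical
  obtain ⟨X, hX⟩ : ∃ X : ℤ × ℤ → ℝ, ∀ v, X v = (f (vtx v)).1 := ⟨_, fun _ => rfl⟩
  obtain ⟨Y, hY⟩ : ∃ Y : ℤ × ℤ → ℝ, ∀ v, Y v = (f (vtx v)).2.1 := ⟨_, fun _ => rfl⟩
  obtain ⟨T, hT⟩ : ∃ T : ℤ × ℤ → ℝ, ∀ v, T v = (f (vtx v)).2.2 := ⟨_, fun _ => rfl⟩
  obtain ⟨r, hr⟩ : ∃ r : ℝ, r = K + C + 1 := ⟨_, rfl⟩
  obtain ⟨c, hc⟩ : ∃ c : ℕ, c = ⌈r * exp r⌉₊ := ⟨_, rfl⟩
  have hr1 : 1 ≤ r := by linarith
  have her : 1 ≤ exp r := one_le_exp (by linarith)
  have hcr : r * exp r ≤ c := by rw [hc]; exact Nat.le_ceil _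
  have hrc : r ≤ c := by nlinarith
  have hc1' : (1 : ℝ) ≤ c := by linarith
  have hc1 : 1 ≤ c := by exact_mod_cast hc1'
  have T0 : ∀ v, 0 ≤ T v := fun v => by rw [hT]; exact hpos _
  have hedge : ∀ e : Edge, ∀ w, w = e.tgt ∨ w = e.lf →
      dSol (f (vtx e.src)) (f (vtx w)) < r := by
    intro e w hw
    have h1 := hf2 (vtx e.src) (vtx w)
    have h2 := near e w hw
    have h3 : K * dist (vtx e.src) (vtx w) ≤ K * 1 :=
      mul_le_mul_of_nonneg_left h2 (by linarith)
    linarith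
  have A2T : ∀ e : Edge, ∀ w, w = e.tgt ∨ w = e.lf → |T w - T e.src| ≤ c := by
    intro e w hw
    rw [hT, hT]
    exact (dSol_bounds (hedge e w hw)).1.trans hrc
  have A2X : ∀ e : Edge, ∀ w, w = e.tgt ∨ w = e.lf → |X w - X e.src| ≤ c * exp (-T e.src) := by
    intro e w hw
    rw [hX, hX, hT]
    exact (dSol_bounds (hedge e w hw)).2.1.trans
      (mul_le_mul_of_nonneg_right hcr (exp_pos _).le)
  have A2Y : ∀ e : Edge, ∀ w, w = e.tgt ∨ w = e.lf → |Y w - Y e.src| ≤ c * exp (T e.src) := by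
    intro e w hw
    rw [hY, hY, hT]
    exact (dSol_bounds (hedge e w hw)).2.2.trans
      (mul_le_mul_of_nonneg_right hcr (exp_pos _).le)
  have hdist : ∀ p q (B : ℝ), dSol (f p) (f q) ≤ B → dist p q ≤ K * (B + C) := by
    intro p q B hB
    have h1 := (hf1 p q).trans hB
    have h2 : dist p q / K ≤ B + C := by linarith
    rwa [div_le_iff₀ (by linarith), mul_comm] at h2
  have A3 : ∀ m : ℝ, ∃ δ : ℕ, ∀ L : ℝ, ∀ u v, |T u - L| ≤ m → |T v - L| ≤ m →
      |Y u - Y v| ≤ exp (L + m) → |X u - X v| ≤ exp (m - L) → v ∈ ball δ u := by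
    intro m
    refine ⟨⌈12 * (K * ((6 * m + 2) + C)) + 9⌉₊, ?_⟩
    intro L u v h1 h2 h3 h4
    have h1' := abs_le.mp h1
    have h2' := abs_le.mp h2
    have hm : 0 ≤ m := (abs_nonneg _).trans h1
    apply far u v (K * ((6 * m + 2) + C))
    · apply hdist
      refine (dSol_le (path_two (f (vtx u)) (f (vtx v)) (L + m) (L - m))).trans ?_
      rw [← hT u, ← hT v, ← hX u, ← hX v, ← hY u, ← hY v]
      have g1 : |L + m - T u| ≤ 2 * m := by rw [abs_le]; constructor <;> linarith
      have g2 : exp (-(L + m)) * |Y v - Y u| ≤ 1 := by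
        rw [abs_sub_comm]
        calc exp (-(L + m)) * |Y u - Y v| ≤ exp (-(L + m)) * exp (L + m) :=
              mul_le_mul_of_nonneg_left h3 (exp_pos _).le
          _ = 1 := by rw [← exp_add]; simp
      have g3 : |L - m - (L + m)| ≤ 2 * m := by rw [abs_le]; constructor <;> linarith
      have g4 : exp (L - m) * |X v - X u| ≤ 1 := by
        rw [abs_sub_comm]
        calc exp (L - m) * |X u - X v| ≤ exp (L - m) * exp (m - L) :=
              mul_le_mul_of_nonneg_left h4 (exp_pos _).le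
          _ = 1 := by rw [← exp_add]; simp
      have g5 : |T v - (L - m)| ≤ 2 * m := by rw [abs_le]; constructor <;> linarith
      linarith
    · exact Nat.le_ceil _
  have A4 : ∃ C' : ℝ, ∀ L : ℝ, 0 ≤ L → ∃ S : Finset (ℤ × ℤ),
      (∀ v, T v ≤ L → |Y v - Y (0, 0)| ≤ exp L → v ∈ S) ∧
      (S.card : ℝ) ≤ C' * (1 + L) ^ 2 * exp L := by
    obtain ⟨K', hK', hcell⟩ := cell_count' X Y T A3
    obtain ⟨A, hA, hlin⟩ := lin_bound (K := K) (C := C) (c := c) (Tp := T (0, 0)) hK hc1'
    have hTp := T0 (0, 0)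
    -- the size of the box
    have key : ∀ L : ℝ, 0 ≤ L → ∀ v, T v ≤ L → |Y v - Y (0, 0)| ≤ exp L →
        v ∈ ball ⌈12 * (A * (1 + L)) + 9⌉₊ (0, 0) := by
      intro L hL v hTv hYv
      obtain ⟨d, hd⟩ : ∃ d, d = dist (vtx (0, 0)) (vtx v) := ⟨_, rfl⟩
      have hd0 : 0 ≤ d := by rw [hd]; exact dist_nonneg
      have hxv : |X v - X (0, 0)| ≤ c * (12 * d + 10) := by
        have h1 := far (0, 0) v d ⌈12 * d + 9⌉₊ (le_of_eq hd.symm) (Nat.le_ceil _)
        have h2 := x_ball (by linarith) T0 A2X h1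
        have h3 := Nat.ceil_lt_add_one (by positivity : 0 ≤ 12 * d + 9)
        refine h2.trans (mul_le_mul_of_nonneg_left ?_ (by linarith))
        linarith
      have hw : 1 ≤ 1 + c * (12 * d + 10) := by
        have : 0 ≤ (c : ℝ) * (12 * d + 10) := by positivity
        linarith
      have hlog : 0 ≤ Real.log (1 + c * (12 * d + 10)) := Real.log_nonneg hw
      have hTv0 := T0 v
      have hbd : d ≤ K * (3 * L + T (0, 0) + 2 + C + 2 * Real.log (1 + c * (12 * d + 10))) := by
        have h1 : dSol (f (vtx (0, 0))) (f (vtx v)) ≤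
            3 * L + T (0, 0) + 2 + 2 * Real.log (1 + c * (12 * d + 10)) := by
          refine (dSol_le (path_two (f (vtx (0, 0))) (f (vtx v)) L
            (-Real.log (1 + c * (12 * d + 10))))).trans ?_
          rw [← hT (0, 0), ← hT v, ← hX (0, 0), ← hX v, ← hY (0, 0), ← hY v]
          have g1 : |L - T (0, 0)| ≤ L + T (0, 0) := by rw [abs_le]; constructor <;> linarith
          have g2 : exp (-L) * |Y v - Y (0, 0)| ≤ 1 := by
            calc exp (-L) * |Y v - Y (0, 0)| ≤ exp (-L) * exp L :=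
                  mul_le_mul_of_nonneg_left hYv (exp_pos _).le
              _ = 1 := by rw [← exp_add]; simp
          have g3 : |-Real.log (1 + c * (12 * d + 10)) - L| ≤ L + Real.log (1 + c * (12 * d + 10)) := by
            rw [abs_le]; constructor <;> linarith
          have g4 : exp (-Real.log (1 + c * (12 * d + 10))) * |X v - X (0, 0)| ≤ 1 := by
            rw [exp_neg, Real.exp_log (by linarith)]
            rw [inv_mul_le_iff₀ (by linarith)]
            linarith
          have g5 : |T v - -Real.log (1 + c * (12 * d + 10))| ≤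
              L + Real.log (1 + c * (12 * d + 10)) := by
            rw [abs_le]; constructor <;> linarith
          linarith
        have h2 := hdist _ _ _ h1
        rw [← hd] at h2
        refine h2.trans (le_of_eq ?_)
        ring
      have hdA := hlin L d hL hd0 hbd
      apply far (0, 0) v (A * (1 + L)) _ (by rw [← hd]; exact hdA) (Nat.le_ceil _)
    refine ⟨K' * (2 * (8 * (c * (12 * A + 10)) + 4 * exp 1 + 4)), fun L hL => ?_⟩
    refine ⟨(ball ⌈12 * (A * (1 + L)) + 9⌉₊ (0, 0)).filter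
      (fun v => T v ≤ L ∧ |Y v - Y (0, 0)| ≤ exp L), ?_, ?_⟩
    · intro v h1 h2
      rw [Finset.mem_filter]
      exact ⟨key L hL v h1 h2, h1, h2⟩
    · obtain ⟨w, hw⟩ : ∃ w : ℝ, w = c * (12 * A + 10) * (1 + L) := ⟨_, rfl⟩
      have hw0 : 0 ≤ w := by rw [hw]; positivity
      have hmain := hcell ((ball ⌈12 * (A * (1 + L)) + 9⌉₊ (0, 0)).filter
        (fun v => T v ≤ L ∧ |Y v - Y (0, 0)| ≤ exp L)) 0 L (X (0, 0) - w) (2 * w)
        (Y (0, 0) - exp L) (2 * exp L) (by linarith) (by positivity) hL (by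
          intro v hv
          rw [Finset.mem_filter] at hv
          obtain ⟨hv1, hv2, hv3⟩ := hv
          have h2 := x_ball (by linarith) T0 A2X hv1
          have h3 := Nat.ceil_lt_add_one (by positivity : 0 ≤ 12 * (A * (1 + L)) + 9)
          have h4 : |X v - X (0, 0)| ≤ w := by
            refine h2.trans ?_
            rw [hw, mul_assoc]
            apply mul_le_mul_of_nonneg_left _ (by linarith)
            nlinarith
          have h5 := abs_le.mp h4
          have h6 := abs_le.mp hv3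
          refine ⟨T0 v, hv2, by linarith, by linarith, by linarith, by linarith⟩)
      refine hmain.trans ?_
      have hre : (K' : ℝ) * (2 * (8 * (c * (12 * A + 10)) + 4 * exp 1 + 4)) * (1 + L) ^ 2 * exp L =
        K' * (2 * (8 * (c * (12 * A + 10)) + 4 * exp 1 + 4) * ((1 + L) ^ 2 * exp L)) := by ring
      rw [hre]
      apply mul_le_mul_of_nonneg_left _ (by positivity)
      have heL := exp_pos L
      have heL1 : 1 ≤ exp L := one_le_exp hL
      have e1 := exp_pos (1 : ℝ)
      rw [sub_zero, sub_zero]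
      have h1 : 2 * w * (2 * exp L) + 2 * (2 * w) * exp L + 2 * (2 * exp L) * exp 1 + 4 ≤
          (8 * (c * (12 * A + 10)) + 4 * exp 1 + 4) * ((1 + L) * exp L) := by
        have h2 : 1 ≤ (1 + L) * exp L := by nlinarith
        have h3 : exp L ≤ (1 + L) * exp L := by nlinarith
        have h4 : exp 1 * exp L ≤ exp 1 * ((1 + L) * exp L) :=
          mul_le_mul_of_nonneg_left h3 e1.le
        rw [hw]
        linarith
      have h2 : 0 ≤ (8 * (c * (12 * A + 10)) + 4 * exp 1 + 4) * ((1 + L) * exp L) := by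
        positivity
      calc (L + 2) * (2 * w * (2 * exp L) + 2 * (2 * w) * exp L + 2 * (2 * exp L) * exp 1 + 4)
          ≤ (L + 2) * ((8 * (c * (12 * A + 10)) + 4 * exp 1 + 4) * ((1 + L) * exp L)) :=
            mul_le_mul_of_nonneg_left h1 (by linarith)
        _ ≤ (2 * (1 + L)) * ((8 * (c * (12 * A + 10)) + 4 * exp 1 + 4) * ((1 + L) * exp L)) :=
            mul_le_mul_of_nonneg_right (by linarith) h2
        _ = _ := by ring
  exact ⟨Dat.mk X Y T (0, 0) c hc1 T0 A2T A2X A2Y A3 A4⟩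

/-- There is no quasi-isometric embedding of the hyperbolic plane into the upper half of Sol. -/
theorem no_qi (hK : 1 ≤ K) (hC : 0 ≤ C)
    (hf1 : ∀ p q, dist p q / K - C ≤ dSol (f p) (f q))
    (hf2 : ∀ p q, dSol (f p) (f q) ≤ K * dist p q + C) (hpos : ∀ p, 0 ≤ (f p).2.2) : False :=
  (exists_dat f K C hK hC hf1 hf2 hpos).elim no_dat

end

end Pool.Agent.V8H67.Sol
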